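import Mathlib

/-!
# Definitions for `MP_a891d2_an`: endomorphisms of the two-torus and SRB measures

All notions are stated for maps of the flat two-torus `𝕋² = (ℝ/ℤ)²`, a closed smooth surface.
The tangent bundle of `𝕋²` is trivialised by the covering `ℝ² → 𝕋²`, and a map `f` of `𝕋²` is
differentiated through a lift `F : ℝ² → ℝ²`.  Points of the natural extension are written
`x : ℕ → 𝕋²`, where `x n` stands for `x_{-n}` in the usual indexing.  The norm of `ℝ × ℝ` is the
sup norm; it is equivalent to the Euclidean one, so that Lyapunov exponents, exponential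
asymptoticity and domination (which allows a constant `C`) do not depend on this choice.
-/

namespace Pool.Agent.Results.MP_a891d2_an.TorusExample

open MeasureTheory Filter Topology

/-- The flat two-torus `(ℝ/ℤ)²`; `volume` is its normalised area measure. -/
abbrev Torus : Type := UnitAddCircle × UnitAddCircle

instance instPolishTorus : PolishSpace Torus := inferInstance
instance instSecondCountableTorus : SecondCountableTopology Torus := inferInstance
instance instBorelTorus : BorelSpace Torus := inferInstance
instance instStandardBorelTorus : StandardBorelSpace Torus := inferInstance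

/-- The covering projection `ℝ² → 𝕋²`. -/
def toTorus (v : ℝ × ℝ) : Torus := ((v.1 : UnitAddCircle), (v.2 : UnitAddCircle))

/-- The representative in `[0,1)²` of a point of the torus. -/
noncomputable def rep (p : Torus) : ℝ × ℝ :=
  ((AddCircle.equivIco 1 0 p.1 : ℝ), (AddCircle.equivIco 1 0 p.2 : ℝ))

/-- `f` is a non-invertible real-analytic local diffeomorphism of the torus, with lift `F`. -/
structure IsEndomorphism (F : ℝ × ℝ → ℝ × ℝ) (f : Torus → Torus) : Prop where
  /-- `F` is a lift of `f`. -/
  lift : ∀ v, f (toTorus v) = toTorus (F v)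
  /-- `F` is real-analytic (`⊤` is the regularity exponent `ω`), in particular `C^∞` and `C²`. -/
  smooth : ContDiff ℝ ⊤ F
  /-- the derivative is invertible at every point. -/
  localDiffeo : ∀ v, Function.Bijective (fderiv ℝ F v)
  /-- `f` is not invertible. -/
  not_injective : ¬ Function.Injective f

/-- The derivative of `f^n` at `p`, computed with the lift `F` of `f`. -/
noncomputable def D (F : ℝ × ℝ → ℝ × ℝ) (n : ℕ) (p : Torus) : ℝ × ℝ →L[ℝ] ℝ × ℝ :=
  fderiv ℝ (F^[n]) (rep p)

/-- Dissipativity, in the strong form that no invariant probability measure is absolutely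
continuous with respect to area (in particular none has a smooth positive density). -/
def IsDissipative (f : Torus → Torus) : Prop :=
  ∀ ν : Measure Torus, IsProbabilityMeasure ν → ν ≪ volume → ν.map f ≠ ν

/-- The natural extension of `f`. -/
def naturalExtension (f : Torus → Torus) : Set (ℕ → Torus) :=
  {x | ∀ n, f (x (n + 1)) = x n}

/-- The shift `(x_0, x_{-1}, …) ↦ (f x_0, x_0, x_{-1}, …)`. -/
def shift (f : Torus → Torus) (x : ℕ → Torus) : ℕ → Torus
  | 0 => f (x 0)
  | n + 1 => x n

/-- `μ'` is the shift-invariant lift of `μ` to the natural extension. -/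
structure IsNaturalLift (f : Torus → Torus) (μ : Measure Torus)
    (μ' : Measure (ℕ → Torus)) : Prop where
  /-- `μ'` lives on the natural extension. -/
  concentrated : ∀ᵐ x ∂μ', x ∈ naturalExtension f
  /-- `μ'` is invariant under the shift. -/
  invariant : μ'.map (shift f) = μ'
  /-- `μ'` projects to `μ`. -/
  projects : μ'.map (fun x => x 0) = μ

/-- The tangent vector `v` at `x_0` has Lyapunov exponent `χ` along `x`, both in forward time and
in backward time along the given past. -/
def HasExponent (F : ℝ × ℝ → ℝ × ℝ) (x : ℕ → Torus) (v : ℝ × ℝ) (χ : ℝ) : Prop :=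
  Tendsto (fun n : ℕ => Real.log ‖D F n (x 0) v‖ / n) atTop (𝓝 χ) ∧
    Tendsto (fun n : ℕ => Real.log ‖(D F n (x n)).inverse v‖ / n) atTop (𝓝 (-χ))

/-- The Lyapunov exponents of `μ'` are `χm` and `χp`: almost every point of the natural extension
has an Oseledets splitting into two lines `ℝ u`, `ℝ w` with these exponents. -/
def HasLyapunovExponents (F : ℝ × ℝ → ℝ × ℝ) (μ' : Measure (ℕ → Torus)) (χm χp : ℝ) : Prop :=
  ∀ᵐ x ∂μ', ∃ u w : ℝ × ℝ, LinearIndependent ℝ ![u, w] ∧
    HasExponent F x u χm ∧ HasExponent F x w χp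

/-- The unstable set of `x` in the natural extension: the points whose past is exponentially
asymptotic to the past of `x`. Its projection to `𝕋²` is the unstable manifold of `x`. -/
def unstableSet (f : Torus → Torus) (x : ℕ → Torus) : Set (ℕ → Torus) :=
  {y | y ∈ naturalExtension f ∧
    ∃ C θ : ℝ, 0 < θ ∧ θ < 1 ∧ ∀ n, dist (x n) (y n) ≤ C * θ ^ n}

/-- `toTorus ∘ c` restricted to `[-1,1]` is an embedded `C¹` arc through `x_0` which is contained
in the unstable manifold of `x`. -/
structure IsUnstableArc (f : Torus → Torus) (x : ℕ → Torus) (c : ℝ → ℝ × ℝ) : Prop where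
  smooth : ContDiff ℝ 1 c
  immersed : ∀ t ∈ Set.Icc (-1 : ℝ) 1, deriv c t ≠ 0
  embedded : Set.InjOn (fun t => toTorus (c t)) (Set.Icc (-1) 1)
  base : toTorus (c 0) = x 0
  unstable : ∀ t ∈ Set.Icc (-1 : ℝ) 1, ∃ y ∈ unstableSet f x, y 0 = toTorus (c t)

/-- The element containing `x` of the partition of the natural extension into level sets
of `q`. -/
def atom {Y : Type} (f : Torus → Torus) (q : (ℕ → Torus) → Y) (x : ℕ → Torus) :
    Set (ℕ → Torus) :=
  {y | y ∈ naturalExtension f ∧ q y = q x}

/-- The atom of `x` is a piece of the local unstable manifold of `x` cut out by the arc `c`: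
it projects injectively into the arc, onto a neighbourhood of `x_0` in the arc. -/
structure SubordinateAt {Y : Type} (f : Torus → Torus) (q : (ℕ → Torus) → Y) (x : ℕ → Torus)
    (c : ℝ → ℝ × ℝ) : Prop where
  arc : IsUnstableArc f x c
  injOn : Set.InjOn (fun y : ℕ → Torus => y 0) (atom f q x)
  unstable : atom f q x ⊆ unstableSet f x
  inArc : ∀ y ∈ atom f q x, ∃ t ∈ Set.Icc (-1 : ℝ) 1, y 0 = toTorus (c t)
  nbhd : ∃ δ > 0, ∀ t : ℝ, |t| < δ → ∃ y ∈ atom f q x, y 0 = toTorus (c t)

/-- The measurable partition into level sets of `q` is subordinate to the unstable manifolds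
of `μ'`. -/
def IsSubordinate {Y : Type} [MeasurableSpace Y] (f : Torus → Torus)
    (μ' : Measure (ℕ → Torus)) (q : (ℕ → Torus) → Y) : Prop :=
  Measurable q ∧ ∀ᵐ x ∂μ', ∃ c, SubordinateAt f q x c

/-- The conditional measures of `μ'` on the elements of the partition into level sets of `q`,
pushed to `𝕋²`, are absolutely continuous with respect to arc length. (As `c` is a regular
parametrisation, the image under `toTorus ∘ c` of Lebesgue measure on `[-1,1]` has the same null
sets as the arc length of the arc.) -/
def HasACConditionals {Y : Type} [MeasurableSpace Y] (f : Torus → Torus)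
    (μ' : Measure (ℕ → Torus)) [IsFiniteMeasure μ'] (q : (ℕ → Torus) → Y) : Prop :=
  ∀ᵐ x ∂μ', ∀ c, SubordinateAt f q x c →
    (ProbabilityTheory.condDistrib (fun y : ℕ → Torus => y) q μ' (q x)).map (fun y => y 0) ≪
      (volume.restrict (Set.Icc (-1 : ℝ) 1)).map (fun t => toTorus (c t))

/-- The SRB property of `μ'`: measurable partitions subordinate to unstable manifolds exist, and
for each of them the conditional measures pushed to `𝕋²` are absolutely continuous with respect
to arc length. -/
def IsSRB (f : Torus → Torus) (μ' : Measure (ℕ → Torus)) [IsFiniteMeasure μ'] : Prop :=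
  (∃ (Y : Type) (_ : MeasurableSpace Y) (_ : StandardBorelSpace Y) (q : (ℕ → Torus) → Y),
    IsSubordinate f μ' q) ∧
  ∀ (Y : Type) [MeasurableSpace Y] [StandardBorelSpace Y] (q : (ℕ → Torus) → Y),
    IsSubordinate f μ' q → HasACConditionals f μ' q

/-- `E` is a continuous field of lines over `K`: it is locally spanned by a continuous nowhere
vanishing section. -/
def IsContinuousLineField (K : Set (ℕ → Torus)) (E : (ℕ → Torus) → Submodule ℝ (ℝ × ℝ)) : Prop :=
  ∀ x ∈ K, ∃ U ∈ 𝓝 x, ∃ s : (ℕ → Torus) → ℝ × ℝ, ContinuousOn s (K ∩ U) ∧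
    ∀ y ∈ K ∩ U, s y ≠ 0 ∧ E y = Submodule.span ℝ {s y}

/-- `E ⊕ E'` is a dominated splitting over the set `K`. -/
structure IsDominatedSplitting (F : ℝ × ℝ → ℝ × ℝ) (f : Torus → Torus) (K : Set (ℕ → Torus))
    (E E' : (ℕ → Torus) → Submodule ℝ (ℝ × ℝ)) : Prop where
  continuous_fst : IsContinuousLineField K E
  continuous_snd : IsContinuousLineField K E'
  isCompl : ∀ x ∈ K, IsCompl (E x) (E' x)
  invariant_fst : ∀ x ∈ K, (E x).map (D F 1 (x 0)).toLinearMap = E (shift f x)
  invariant_snd : ∀ x ∈ K, (E' x).map (D F 1 (x 0)).toLinearMap = E' (shift f x)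
  dominated : ∃ C θ : ℝ, 0 < C ∧ 0 < θ ∧ θ < 1 ∧ ∀ x ∈ K, ∀ n : ℕ, ∀ u ∈ E x, ∀ v ∈ E' x,
    ‖u‖ = 1 → ‖v‖ = 1 → ‖D F n (x 0) u‖ ≤ C * θ ^ n * ‖D F n (x 0) v‖

end Pool.Agent.Results.MP_a891d2_an.TorusExample
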