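import Mathlib
import Pool.Agent.Lib_MP_a891d2_an.Defs

/-!
# The map

`f (x, y) = (3 x, g_x y)` where `g_x` is the circle diffeomorphism given by
`tan (π g_x(y)) = a(x) tan (π y)`, and `a(x) = exp (-1 + 3 cos (2 π x))`.
-/

namespace Pool.Agent.Results.MP_a891d2_an.TorusExample

open MeasureTheory Filter Topology

/-- The multiplier `a(x) = exp (-1 + 3 cos (2πx))` of the fibre map at `y = 0`. -/
noncomputable def mult (x : ℝ) : ℝ := Real.exp (-1 + 3 * Real.cos (2 * Real.pi * x))

/-- The denominator `cos² (πy) + a(x) sin² (πy)`. -/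
noncomputable def den (v : ℝ × ℝ) : ℝ :=
  Real.cos (Real.pi * v.2) ^ 2 + mult v.1 * Real.sin (Real.pi * v.2) ^ 2

/-- The argument of the arctangent. -/
noncomputable def quo (v : ℝ × ℝ) : ℝ :=
  (mult v.1 - 1) * Real.sin (Real.pi * v.2) * Real.cos (Real.pi * v.2) / den v

/-- The lift of the fibre map, as a function of `v = (x,y)`. -/
noncomputable def fib (v : ℝ × ℝ) : ℝ := v.2 + Real.arctan (quo v) / Real.pi

/-- The lift of the map. -/
noncomputable def lift (v : ℝ × ℝ) : ℝ × ℝ := (3 * v.1, fib v)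

/-- The map of the torus. -/
noncomputable def map (p : Torus) : Torus := toTorus (lift (rep p))

lemma mult_pos (x : ℝ) : 0 < mult x := Real.exp_pos _

lemma mult_add_int (x : ℝ) (k : ℤ) : mult (x + k) = mult x := by
  unfold mult
  have : 2 * Real.pi * (x + k) = 2 * Real.pi * x + k * (2 * Real.pi) := by ring
  rw [this, Real.cos_add_int_mul_two_pi]

lemma den_pos (v : ℝ × ℝ) : 0 < den v := by
  unfold den
  have h1 := Real.sin_sq_add_cos_sq (Real.pi * v.2)
  have h2 := mult_pos v.1
  rcases eq_or_ne (Real.sin (Real.pi * v.2)) 0 with h | h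
  · rw [h] at h1 ⊢
    nlinarith
  · have : 0 < Real.sin (Real.pi * v.2) ^ 2 := by positivity
    have : 0 < mult v.1 * Real.sin (Real.pi * v.2) ^ 2 := by positivity
    nlinarith [sq_nonneg (Real.cos (Real.pi * v.2))]

lemma quo_zero (x : ℝ) : quo (x, 0) = 0 := by
  simp [quo]

lemma fib_zero (x : ℝ) : fib (x, 0) = 0 := by
  simp [fib, quo_zero]

lemma lift_zero (x : ℝ) : lift (x, 0) = (3 * x, 0) := by
  simp [lift, fib_zero]

lemma sin_add_int_mul_pi_mul_cos (t : ℝ) (k : ℤ) :
    Real.sin (t + k * Real.pi) * Real.cos (t + k * Real.pi) = Real.sin t * Real.cos t := by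
  have h1 : Real.sin (2 * (t + k * Real.pi)) = Real.sin (2 * t) := by
    have : 2 * (t + k * Real.pi) = 2 * t + k * (2 * Real.pi) := by ring
    rw [this, Real.sin_add_int_mul_two_pi]
  rw [Real.sin_two_mul, Real.sin_two_mul] at h1
  linarith

lemma cos_sq_add_int_mul_pi (t : ℝ) (k : ℤ) :
    Real.cos (t + k * Real.pi) ^ 2 = Real.cos t ^ 2 := by
  rw [Real.cos_sq, Real.cos_sq]
  have : 2 * (t + k * Real.pi) = 2 * t + k * (2 * Real.pi) := by ring
  rw [this, Real.cos_add_int_mul_two_pi]

lemma sin_sq_add_int_mul_pi (t : ℝ) (k : ℤ) :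
    Real.sin (t + k * Real.pi) ^ 2 = Real.sin t ^ 2 := by
  rw [Real.sin_sq, Real.sin_sq, cos_sq_add_int_mul_pi]

lemma den_add_int (v : ℝ × ℝ) (m n : ℤ) : den (v.1 + m, v.2 + n) = den v := by
  unfold den
  simp only
  have : Real.pi * (v.2 + n) = Real.pi * v.2 + n * Real.pi := by ring
  rw [this, cos_sq_add_int_mul_pi, sin_sq_add_int_mul_pi, mult_add_int]

lemma quo_add_int (v : ℝ × ℝ) (m n : ℤ) : quo (v.1 + m, v.2 + n) = quo v := by
  unfold quo
  rw [den_add_int]
  simp only
  have : Real.pi * (v.2 + n) = Real.pi * v.2 + n * Real.pi := by ring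
  rw [this, mul_assoc, sin_add_int_mul_pi_mul_cos, mult_add_int, ← mul_assoc]

lemma lift_add_int (v : ℝ × ℝ) (m n : ℤ) :
    lift (v.1 + m, v.2 + n) = ((lift v).1 + (3 * m : ℤ), (lift v).2 + n) := by
  unfold lift fib
  rw [quo_add_int]
  simp only [Prod.mk.injEq]
  constructor
  · push_cast; ring
  · ring

lemma exists_rep_toTorus (v : ℝ × ℝ) :
    ∃ m n : ℤ, rep (toTorus v) = (v.1 + m, v.2 + n) := by
  have key : ∀ x : ℝ, ∃ m : ℤ, ((AddCircle.equivIco 1 0 (x : UnitAddCircle) : ℝ)) = x + m := by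
    intro x
    have h : ((AddCircle.equivIco 1 0 (x : UnitAddCircle) : ℝ) : UnitAddCircle)
        = (x : UnitAddCircle) := by
      simp
    rw [QuotientAddGroup.eq_iff_sub_mem, AddSubgroup.mem_zmultiples_iff] at h
    obtain ⟨k, hk⟩ := h
    refine ⟨k, ?_⟩
    simp only [zsmul_eq_mul, mul_one] at hk
    linarith
  obtain ⟨m, hm⟩ := key v.1
  obtain ⟨n, hn⟩ := key v.2
  exact ⟨m, n, by simp [rep, toTorus, hm, hn]⟩

lemma toTorus_rep (p : Torus) : toTorus (rep p) = p := by
  unfold toTorus rep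
  have key : ∀ x : UnitAddCircle, (((AddCircle.equivIco 1 0 x : ℝ)) : UnitAddCircle) = x := by
    intro x
    simp
  simp [key]

lemma toTorus_add_int (v : ℝ × ℝ) (m n : ℤ) : toTorus (v.1 + m, v.2 + n) = toTorus v := by
  have key : ∀ (x : ℝ) (k : ℤ), ((x + k : ℝ) : UnitAddCircle) = (x : UnitAddCircle) := by
    intro x k
    have h : ((k : ℝ) : UnitAddCircle) = 0 := by
      rw [AddCircle.coe_eq_zero_iff]
      exact ⟨k, by simp⟩
    rw [AddCircle.coe_add, h, add_zero]
  simp [toTorus, key]

lemma map_toTorus (v : ℝ × ℝ) : map (toTorus v) = toTorus (lift v) := by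
  unfold map
  obtain ⟨m, n, h⟩ := exists_rep_toTorus v
  rw [h, lift_add_int]
  exact toTorus_add_int (lift v) (3 * m) n

/-! ### Smoothness -/

lemma contDiff_mult {n : WithTop ℕ∞} : ContDiff ℝ n mult := by
  unfold mult
  exact Real.contDiff_exp.comp
    (contDiff_const.add (contDiff_const.mul (Real.contDiff_cos.comp (contDiff_const.mul contDiff_id))))

lemma contDiff_den {n : WithTop ℕ∞} : ContDiff ℝ n den := by
  unfold den
  have h1 : ContDiff ℝ n (fun v : ℝ × ℝ => Real.cos (Real.pi * v.2)) :=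
    Real.contDiff_cos.comp (contDiff_const.mul contDiff_snd)
  have h2 : ContDiff ℝ n (fun v : ℝ × ℝ => Real.sin (Real.pi * v.2)) :=
    Real.contDiff_sin.comp (contDiff_const.mul contDiff_snd)
  exact (h1.pow 2).add ((contDiff_mult.comp contDiff_fst).mul (h2.pow 2))

lemma contDiff_quo {n : WithTop ℕ∞} : ContDiff ℝ n quo := by
  unfold quo
  have h1 : ContDiff ℝ n (fun v : ℝ × ℝ => Real.cos (Real.pi * v.2)) :=
    Real.contDiff_cos.comp (contDiff_const.mul contDiff_snd)
  have h2 : ContDiff ℝ n (fun v : ℝ × ℝ => Real.sin (Real.pi * v.2)) :=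
    Real.contDiff_sin.comp (contDiff_const.mul contDiff_snd)
  exact ((((contDiff_mult.comp contDiff_fst).sub contDiff_const).mul h2).mul h1).div contDiff_den
    (fun v => (den_pos v).ne')

lemma contDiff_fib {n : WithTop ℕ∞} : ContDiff ℝ n fib := by
  unfold fib
  exact contDiff_snd.add ((Real.contDiff_arctan.comp contDiff_quo).div_const _)

lemma contDiff_lift {n : WithTop ℕ∞} : ContDiff ℝ n lift := by
  unfold lift
  exact (contDiff_const.mul contDiff_fst).prodMk contDiff_fib

/-! ### The action on `tan (π y)` -/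

lemma one_add_quo_sq (v : ℝ × ℝ) :
    (1 + quo v ^ 2) * den v ^ 2 =
      Real.cos (Real.pi * v.2) ^ 2 + mult v.1 ^ 2 * Real.sin (Real.pi * v.2) ^ 2 := by
  have h1 := Real.sin_sq_add_cos_sq (Real.pi * v.2)
  have hd := (den_pos v).ne'
  have h2 : quo v * den v =
      (mult v.1 - 1) * Real.sin (Real.pi * v.2) * Real.cos (Real.pi * v.2) := by
    unfold quo
    field_simp
  have h3 : (1 + quo v ^ 2) * den v ^ 2 = den v ^ 2 + (quo v * den v) ^ 2 := by ring
  rw [h3, h2]
  unfold den
  set s := Real.sin (Real.pi * v.2)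
  set c := Real.cos (Real.pi * v.2)
  set a := mult v.1
  have hs : s ^ 2 = 1 - c ^ 2 := by linarith
  have : (c ^ 2 + a * s ^ 2) ^ 2 + ((a - 1) * s * c) ^ 2
      = (c ^ 2 + a * s ^ 2) ^ 2 + (a - 1) ^ 2 * s ^ 2 * c ^ 2 := by ring
  rw [this, hs]
  ring

/-- the common factor: `sin (π g) * w = a sin (π y)` and `cos (π g) * w = cos (π y)` for some
positive `w`. -/
lemma exists_factor (v : ℝ × ℝ) : ∃ w : ℝ, 0 < w ∧
    Real.sin (Real.pi * fib v) * w = mult v.1 * Real.sin (Real.pi * v.2) ∧
    Real.cos (Real.pi * fib v) * w = Real.cos (Real.pi * v.2) := by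
  have h1 := Real.sin_sq_add_cos_sq (Real.pi * v.2)
  have hd := den_pos v
  have h2 : quo v * den v =
      (mult v.1 - 1) * Real.sin (Real.pi * v.2) * Real.cos (Real.pi * v.2) := by
    unfold quo
    field_simp
  have hpi : Real.pi * fib v = Real.pi * v.2 + Real.arctan (quo v) := by
    unfold fib
    field_simp
  have hr : 0 < Real.sqrt (1 + quo v ^ 2) := by positivity
  have hsin : Real.sin (Real.arctan (quo v)) * Real.sqrt (1 + quo v ^ 2) = quo v := by
    rw [Real.sin_arctan]
    field_simp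
  have hcos : Real.cos (Real.arctan (quo v)) * Real.sqrt (1 + quo v ^ 2) = 1 := by
    rw [Real.cos_arctan]
    field_simp
  refine ⟨Real.sqrt (1 + quo v ^ 2) * den v, by positivity, ?_, ?_⟩
  · rw [hpi, Real.sin_add]
    calc (Real.sin (Real.pi * v.2) * Real.cos (Real.arctan (quo v)) +
          Real.cos (Real.pi * v.2) * Real.sin (Real.arctan (quo v))) *
          (Real.sqrt (1 + quo v ^ 2) * den v)
        = Real.sin (Real.pi * v.2) * (Real.cos (Real.arctan (quo v)) * Real.sqrt (1 + quo v ^ 2))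
            * den v + Real.cos (Real.pi * v.2) *
            (Real.sin (Real.arctan (quo v)) * Real.sqrt (1 + quo v ^ 2)) * den v := by ring
      _ = Real.sin (Real.pi * v.2) * den v + Real.cos (Real.pi * v.2) * (quo v * den v) := by
          rw [hsin, hcos]; ring
      _ = mult v.1 * Real.sin (Real.pi * v.2) := by
          rw [h2]
          unfold den
          set s := Real.sin (Real.pi * v.2)
          set c := Real.cos (Real.pi * v.2)
          set a := mult v.1
          have hs : c ^ 2 = 1 - s ^ 2 := by linarith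
          have : s * (c ^ 2 + a * s ^ 2) + c * ((a - 1) * s * c)
              = s * (c ^ 2 + a * s ^ 2) + c ^ 2 * (a - 1) * s := by ring
          rw [this, hs]
          ring
  · rw [hpi, Real.cos_add]
    calc (Real.cos (Real.pi * v.2) * Real.cos (Real.arctan (quo v)) -
          Real.sin (Real.pi * v.2) * Real.sin (Real.arctan (quo v))) *
          (Real.sqrt (1 + quo v ^ 2) * den v)
        = Real.cos (Real.pi * v.2) * (Real.cos (Real.arctan (quo v)) * Real.sqrt (1 + quo v ^ 2))
            * den v - Real.sin (Real.pi * v.2) *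
            (Real.sin (Real.arctan (quo v)) * Real.sqrt (1 + quo v ^ 2)) * den v := by ring
      _ = Real.cos (Real.pi * v.2) * den v - Real.sin (Real.pi * v.2) * (quo v * den v) := by
          rw [hsin, hcos]; ring
      _ = Real.cos (Real.pi * v.2) := by
          rw [h2]
          unfold den
          set s := Real.sin (Real.pi * v.2)
          set c := Real.cos (Real.pi * v.2)
          set a := mult v.1
          have hs : s ^ 2 = 1 - c ^ 2 := by linarith
          have : c * (c ^ 2 + a * s ^ 2) - s * ((a - 1) * s * c)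
              = c * (c ^ 2 + a * s ^ 2) - s ^ 2 * (a - 1) * c := by ring
          rw [this, hs]
          ring

/-- The fibre map multiplies `tan (π y)` by `a(x)`. -/
lemma tan_fib (v : ℝ × ℝ) :
    Real.tan (Real.pi * fib v) = mult v.1 * Real.tan (Real.pi * v.2) := by
  obtain ⟨w, hw, h1, h2⟩ := exists_factor v
  rw [Real.tan_eq_sin_div_cos, Real.tan_eq_sin_div_cos, ← mul_div_assoc, ← h1, ← h2]
  field_simp

lemma cos_fib_eq_zero_iff (v : ℝ × ℝ) :
    Real.cos (Real.pi * fib v) = 0 ↔ Real.cos (Real.pi * v.2) = 0 := by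
  obtain ⟨w, hw, h1, h2⟩ := exists_factor v
  rw [← h2]
  simp [hw.ne']

/-! ### Derivatives -/

/-- The derivative of the fibre map in the direction of the fibre. -/
lemma hasDerivAt_fib (x y : ℝ) :
    HasDerivAt (fun t : ℝ => fib (x, t)) (mult x /
      (Real.cos (Real.pi * y) ^ 2 + mult x ^ 2 * Real.sin (Real.pi * y) ^ 2)) y := by
  have hs : HasDerivAt (fun t : ℝ => Real.sin (Real.pi * t))
      (Real.cos (Real.pi * y) * Real.pi) y := by
    exact (((hasDerivAt_id' y).const_mul Real.pi).sin).congr_deriv (by ring)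
  have hc : HasDerivAt (fun t : ℝ => Real.cos (Real.pi * t))
      (-Real.sin (Real.pi * y) * Real.pi) y := by
    exact (((hasDerivAt_id' y).const_mul Real.pi).cos).congr_deriv (by ring)
  have hden : HasDerivAt (fun t : ℝ => den (x, t))
      (2 * (mult x - 1) * Real.pi * Real.sin (Real.pi * y) * Real.cos (Real.pi * y)) y := by
    have h := (hc.fun_pow 2).fun_add ((hs.fun_pow 2).const_mul (mult x))
    refine h.congr_deriv ?_
    simp only [Nat.cast_ofNat, Nat.add_one_sub_one, pow_one]
    ring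
  have hnum : HasDerivAt
      (fun t : ℝ => (mult x - 1) * Real.sin (Real.pi * t) * Real.cos (Real.pi * t))
      ((mult x - 1) * Real.pi * (Real.cos (Real.pi * y) ^ 2 - Real.sin (Real.pi * y) ^ 2)) y := by
    exact ((hs.const_mul (mult x - 1)).fun_mul hc).congr_deriv (by ring)
  have hquo : HasDerivAt (fun t : ℝ => quo (x, t))
      (((mult x - 1) * Real.pi * (Real.cos (Real.pi * y) ^ 2 - Real.sin (Real.pi * y) ^ 2) *
        den (x, y) - (mult x - 1) * Real.sin (Real.pi * y) * Real.cos (Real.pi * y) *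
        (2 * (mult x - 1) * Real.pi * Real.sin (Real.pi * y) * Real.cos (Real.pi * y))) /
        den (x, y) ^ 2) y := by
    exact hnum.fun_div hden (den_pos (x, y)).ne'
  have hfib := (hasDerivAt_id' y).fun_add (hquo.arctan.div_const Real.pi)
  have hq := one_add_quo_sq (x, y)
  simp only at hq
  have hd := den_pos (x, y)
  have h1 := Real.sin_sq_add_cos_sq (Real.pi * y)
  have hE : 0 < Real.cos (Real.pi * y) ^ 2 + mult x ^ 2 * Real.sin (Real.pi * y) ^ 2 := by
    rw [← hq]
    positivity
  refine hfib.congr_deriv ?_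
  have hq' : 1 + quo (x, y) ^ 2 =
      (Real.cos (Real.pi * y) ^ 2 + mult x ^ 2 * Real.sin (Real.pi * y) ^ 2) / den (x, y) ^ 2 := by
    rw [← hq]
    field_simp
  rw [hq']
  have hdn : den (x, y) = Real.cos (Real.pi * y) ^ 2 + mult x * Real.sin (Real.pi * y) ^ 2 := rfl
  field_simp
  rw [hdn]
  set s := Real.sin (Real.pi * y)
  set c := Real.cos (Real.pi * y)
  set a := mult x
  have hs' : s ^ 2 = 1 - c ^ 2 := by linarith
  ring_nf
  have e4 : s ^ 4 = (1 - c ^ 2) ^ 2 := by rw [← hs']; ring
  simp only [e4, hs']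
  ring

end Pool.Agent.Results.MP_a891d2_an.TorusExample
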