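import Mathlib

/-!
# A strong law of large numbers for bounded orthogonal sequences
-/

namespace Pool.Agent.Results.MP_a891d2_an.TorusExample

open MeasureTheory Filter Topology Finset

theorem slln_orthogonal {Ω : Type*} [MeasurableSpace Ω] (P : Measure Ω) [IsProbabilityMeasure P]
    (X : ℕ → Ω → ℝ) (hm : ∀ k, Measurable (X k)) (hb : ∀ k ω, |X k ω| ≤ 1)
    (ho : ∀ j k, j ≠ k → ∫ ω, X j ω * X k ω ∂P = 0) :
    ∀ᵐ ω ∂P, Tendsto (fun n : ℕ => (∑ k ∈ range n, X k ω) / n) atTop (𝓝 0) := by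
  -- second moments
  have hint : ∀ j k, Integrable (fun ω => X j ω * X k ω) P := by
    intro j k
    refine Integrable.of_bound ((hm j).mul (hm k)).aestronglyMeasurable 1 ?_
    refine Eventually.of_forall fun ω => ?_
    rw [Real.norm_eq_abs, abs_mul]
    exact mul_le_one₀ (hb j ω) (abs_nonneg _) (hb k ω)
  have hsq : ∀ n : ℕ, ∫ ω, (∑ k ∈ range n, X k ω) ^ 2 ∂P ≤ n := by
    intro n
    have h1 : ∀ ω, (∑ k ∈ range n, X k ω) ^ 2
        = ∑ j ∈ range n, ∑ k ∈ range n, X j ω * X k ω := by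
      intro ω
      rw [sq, Finset.sum_mul_sum]
    simp_rw [h1]
    rw [integral_finsetSum _ (fun j _ => integrable_finsetSum _ (fun k _ => hint j k))]
    have h2 : ∀ j ∈ range n, ∫ ω, ∑ k ∈ range n, X j ω * X k ω ∂P ≤ 1 := by
      intro j hj
      rw [integral_finsetSum _ (fun k _ => hint j k), Finset.sum_eq_single j]
      · calc ∫ ω, X j ω * X j ω ∂P ≤ ∫ _ω, (1 : ℝ) ∂P := by
              apply integral_mono (hint j j) (integrable_const _)
              intro ω
              have := hb j ω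
              have h3 : X j ω * X j ω = |X j ω| * |X j ω| := (abs_mul_abs_self _).symm
              simp only [h3]
              exact mul_le_one₀ this (abs_nonneg _) this
          _ = 1 := by simp
      · intro k _ hk
        exact ho j k (Ne.symm hk)
      · intro h
        exact absurd hj h
    calc ∑ j ∈ range n, ∫ ω, ∑ k ∈ range n, X j ω * X k ω ∂P ≤ ∑ _j ∈ range n, (1 : ℝ) :=
          Finset.sum_le_sum h2
      _ = n := by simp
  -- along the squares
  set Y : ℕ → Ω → ENNReal := fun m ω =>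
    ENNReal.ofReal (((∑ k ∈ range ((m + 1) ^ 2), X k ω) / ((m + 1 : ℕ) ^ 2 : ℕ)) ^ 2) with hY
  have hYm : ∀ m, Measurable (Y m) := by
    intro m
    apply Measurable.ennreal_ofReal
    exact ((Finset.measurable_fun_sum _ (fun k _ => hm k)).div_const _).pow_const _
  have hYint : ∀ m, ∫⁻ ω, Y m ω ∂P ≤ ENNReal.ofReal (1 / ((m : ℝ) + 1) ^ 2) := by
    intro m
    rw [hY]
    rw [← ofReal_integral_eq_lintegral_ofReal]
    · apply ENNReal.ofReal_le_ofReal
      have h1 := hsq ((m + 1) ^ 2)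
      have h2 : ∀ ω, ((∑ k ∈ range ((m + 1) ^ 2), X k ω) / ((m + 1 : ℕ) ^ 2 : ℕ)) ^ 2
          = (∑ k ∈ range ((m + 1) ^ 2), X k ω) ^ 2 / (((m : ℝ) + 1) ^ 2) ^ 2 := by
        intro ω
        rw [div_pow]
        push_cast
        ring
      simp_rw [h2]
      rw [integral_div]
      have h3 : (0 : ℝ) < ((m : ℝ) + 1) ^ 2 := by positivity
      rw [div_le_div_iff₀ (by positivity) (by positivity)]
      push_cast at h1
      nlinarith
    · refine Integrable.of_bound
        (((Finset.measurable_fun_sum _ (fun k _ => hm k)).div_const _).pow_const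
          _).aestronglyMeasurable 1 ?_
      refine Eventually.of_forall fun ω => ?_
      rw [Real.norm_eq_abs, abs_pow, abs_div]
      have h3 : (0 : ℝ) < (((m + 1 : ℕ) ^ 2 : ℕ) : ℝ) := by positivity
      rw [abs_of_pos h3]
      have h4 : |∑ k ∈ range ((m + 1) ^ 2), X k ω| ≤ (((m + 1 : ℕ) ^ 2 : ℕ) : ℝ) := by
        calc |∑ k ∈ range ((m + 1) ^ 2), X k ω| ≤ ∑ k ∈ range ((m + 1) ^ 2), |X k ω| :=
              Finset.abs_sum_le_sum_abs _ _
          _ ≤ ∑ _k ∈ range ((m + 1) ^ 2), (1 : ℝ) := Finset.sum_le_sum (fun k _ => hb k ω)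
          _ = _ := by simp
      have h5 : |∑ k ∈ range ((m + 1) ^ 2), X k ω| / (((m + 1 : ℕ) ^ 2 : ℕ) : ℝ) ≤ 1 := by
        rw [div_le_one h3]
        exact h4
      exact pow_le_one₀ (by positivity) h5
    · exact Eventually.of_forall fun ω => by positivity
  have hsum : ∑' m, ∫⁻ ω, Y m ω ∂P ≠ ⊤ := by
    have h1 : Summable (fun m : ℕ => 1 / ((m : ℝ) + 1) ^ 2) := by
      have := (summable_nat_add_iff 1).2 (Real.summable_one_div_nat_pow.2 (by norm_num : 1 < 2))
      simpa using this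
    have h2 : ∑' m : ℕ, ENNReal.ofReal (1 / ((m : ℝ) + 1) ^ 2) ≠ ⊤ := by
      rw [← ENNReal.ofReal_tsum_of_nonneg (fun m => by positivity) h1]
      exact ENNReal.ofReal_ne_top
    exact ne_top_of_le_ne_top h2 (ENNReal.tsum_le_tsum hYint)
  have hae : ∀ᵐ ω ∂P, ∑' m, Y m ω ≠ ⊤ := by
    rw [← lintegral_tsum (fun m => (hYm m).aemeasurable)] at hsum
    have := ae_lt_top (Measurable.tsum hYm) hsum
    filter_upwards [this] with ω hω
    exact hω.ne
  filter_upwards [hae] with ω hω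
  have hY0 : Tendsto (fun m => Y m ω) atTop (𝓝 0) := ENNReal.tendsto_atTop_zero_of_tsum_ne_top hω
  have hS0 : Tendsto (fun m : ℕ => |(∑ k ∈ range ((m + 1) ^ 2), X k ω) /
      ((m + 1 : ℕ) ^ 2 : ℕ)|) atTop (𝓝 0) := by
    have h1 : Tendsto (fun m : ℕ => ((∑ k ∈ range ((m + 1) ^ 2), X k ω) /
        ((m + 1 : ℕ) ^ 2 : ℕ)) ^ 2) atTop (𝓝 0) := by
      have := (ENNReal.tendsto_toReal ENNReal.zero_ne_top).comp hY0
      simp only [ENNReal.toReal_zero] at this
      refine this.congr fun m => ?_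
      simp only [Function.comp, hY]
      rw [ENNReal.toReal_ofReal (by positivity)]
    have h2 := h1.sqrt
    simp only [Real.sqrt_sq_eq_abs, Real.sqrt_zero] at h2
    exact h2
  -- interpolation
  have hsqrt : Tendsto (fun n : ℕ => Nat.sqrt n) atTop atTop := by
    rw [tendsto_atTop]
    intro b
    filter_upwards [eventually_ge_atTop (b * b)] with n hn
    exact Nat.le_sqrt.2 hn
  have hsqrt' : Tendsto (fun n : ℕ => Nat.sqrt n - 1) atTop atTop :=
    (tendsto_sub_atTop_nat 1).comp hsqrt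
  have hbound : Tendsto (fun n : ℕ => |(∑ k ∈ range (((Nat.sqrt n - 1) + 1) ^ 2), X k ω) /
      (((Nat.sqrt n - 1) + 1 : ℕ) ^ 2 : ℕ)| + 2 / ((Nat.sqrt n : ℕ) : ℝ)) atTop (𝓝 0) := by
    have h1 := hS0.comp hsqrt'
    have h2 : Tendsto (fun n : ℕ => 2 / ((Nat.sqrt n : ℕ) : ℝ)) atTop (𝓝 0) :=
      (tendsto_const_div_atTop_nhds_zero_nat (2 : ℝ)).comp hsqrt
    simpa using h1.add h2
  rw [tendsto_zero_iff_abs_tendsto_zero]
  refine squeeze_zero' (Eventually.of_forall fun n => abs_nonneg _) ?_ hbound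
  filter_upwards [eventually_ge_atTop 1] with n hn
  simp only [Function.comp]
  set m := Nat.sqrt n with hmdef
  have hm1 : 1 ≤ m := Nat.le_sqrt.2 (by simpa using hn)
  have hmm : m - 1 + 1 = m := Nat.sub_add_cancel hm1
  rw [hmm]
  have hle : m ^ 2 ≤ n := by
    have := Nat.sqrt_le n
    rw [sq]; exact this
  have hlt : n < (m + 1) ^ 2 := by
    have := Nat.lt_succ_sqrt n
    rw [sq]; exact this
  have hsplit : ∑ k ∈ range n, X k ω = ∑ k ∈ range (m ^ 2), X k ω + ∑ k ∈ Ico (m ^ 2) n, X k ω := by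
    rw [Finset.sum_range_add_sum_Ico _ hle]
  have h3 : |∑ k ∈ Ico (m ^ 2) n, X k ω| ≤ 2 * m := by
    calc |∑ k ∈ Ico (m ^ 2) n, X k ω| ≤ ∑ k ∈ Ico (m ^ 2) n, |X k ω| :=
          Finset.abs_sum_le_sum_abs _ _
      _ ≤ ∑ _k ∈ Ico (m ^ 2) n, (1 : ℝ) := Finset.sum_le_sum (fun k _ => hb k ω)
      _ = ((n - m ^ 2 : ℕ) : ℝ) := by simp
      _ ≤ 2 * m := by
          have : n - m ^ 2 ≤ 2 * m := by
            have : (m + 1) ^ 2 = m ^ 2 + 2 * m + 1 := by ring
            omega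
          exact_mod_cast this
  have hmpos : (0 : ℝ) < m := by exact_mod_cast hm1
  have hnpos : (0 : ℝ) < n := by exact_mod_cast hn
  have hmn : ((m ^ 2 : ℕ) : ℝ) ≤ n := by exact_mod_cast hle
  rw [abs_div, abs_div, abs_of_pos hnpos, abs_of_pos (by positivity : (0 : ℝ) < ((m ^ 2 : ℕ) : ℝ))]
  calc |∑ k ∈ range n, X k ω| / n
      ≤ (|∑ k ∈ range (m ^ 2), X k ω| + 2 * m) / n := by
        apply div_le_div_of_nonneg_right _ hnpos.le
        rw [hsplit]
        exact (abs_add_le _ _).trans (add_le_add_right h3 _)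
    _ ≤ (|∑ k ∈ range (m ^ 2), X k ω| + 2 * m) / ((m ^ 2 : ℕ) : ℝ) := by
        apply div_le_div_of_nonneg_left (by positivity) (by positivity) hmn
    _ = |∑ k ∈ range (m ^ 2), X k ω| / ((m ^ 2 : ℕ) : ℝ) + 2 / m := by
        rw [add_div]
        congr 1
        push_cast
        field_simp

end Pool.Agent.Results.MP_a891d2_an.TorusExample
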