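import Mathlib
import Pool.Agent.Lib_MP_a891d2_an.Slln
import Pool.Agent.Lib_MP_a891d2_an.Map

/-!
# Characters of the circle and equidistribution of `3^k ξ`
-/

namespace Pool.Agent.Results.MP_a891d2_an.TorusExample

open MeasureTheory Filter Topology Finset

instance instProbCirc : IsProbabilityMeasure (volume : Measure UnitAddCircle) :=
  ⟨UnitAddCircle.measure_univ⟩

lemma integral_fourier_eq_zero {n : ℤ} (hn : n ≠ 0) :
    ∫ ξ : UnitAddCircle, fourier n ξ = 0 := by
  apply integral_eq_zero_of_add_right_eq_neg (g := ((1 / 2 / n : ℝ) : UnitAddCircle))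
  intro x
  exact fourier_add_half_inv_index hn one_pos x

lemma integrable_fourier (n : ℤ) :
    Integrable (fun ξ : UnitAddCircle => (fourier n ξ : ℂ)) volume := by
  refine Integrable.of_bound (ContinuousMap.continuous _).aestronglyMeasurable 1 ?_
  exact Eventually.of_forall fun ξ => by
    rw [fourier_apply]; simp

lemma integral_fourier_re_eq_zero {n : ℤ} (hn : n ≠ 0) :
    ∫ ξ : UnitAddCircle, (fourier n ξ : ℂ).re = 0 := by
  have h := integral_re (𝕜 := ℂ) (integrable_fourier n)
  simp only [RCLike.re_to_complex] at h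
  rw [h, integral_fourier_eq_zero hn]
  simp

lemma orth_re {a b : ℤ} (h1 : a + b ≠ 0) (h2 : a - b ≠ 0) :
    ∫ ξ : UnitAddCircle, (fourier a ξ : ℂ).re * (fourier b ξ : ℂ).re = 0 := by
  have key : ∀ ξ : UnitAddCircle, (fourier a ξ : ℂ).re * (fourier b ξ : ℂ).re
      = (fourier (a + b) ξ : ℂ).re / 2 + (fourier (a - b) ξ : ℂ).re / 2 := by
    intro ξ
    rw [sub_eq_add_neg, fourier_add, fourier_add, fourier_neg]
    simp only [Complex.mul_re, Complex.conj_re, Complex.conj_im]
    ring
  simp_rw [key]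
  have hint : ∀ n : ℤ, Integrable (fun ξ : UnitAddCircle => (fourier n ξ : ℂ).re / 2) volume :=
    fun n => (integrable_fourier n).re.div_const 2
  rw [integral_add (hint _) (hint _), integral_div, integral_div,
    integral_fourier_re_eq_zero h1, integral_fourier_re_eq_zero h2]
  simp

lemma orth_im {a b : ℤ} (h1 : a + b ≠ 0) (h2 : a - b ≠ 0) :
    ∫ ξ : UnitAddCircle, (fourier a ξ : ℂ).im * (fourier b ξ : ℂ).im = 0 := by
  have key : ∀ ξ : UnitAddCircle, (fourier a ξ : ℂ).im * (fourier b ξ : ℂ).im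
      = (fourier (a - b) ξ : ℂ).re / 2 - (fourier (a + b) ξ : ℂ).re / 2 := by
    intro ξ
    rw [sub_eq_add_neg a b, fourier_add, fourier_add, fourier_neg]
    simp only [Complex.mul_re, Complex.conj_re, Complex.conj_im]
    ring
  simp_rw [key]
  have hint : ∀ n : ℤ, Integrable (fun ξ : UnitAddCircle => (fourier n ξ : ℂ).re / 2) volume :=
    fun n => (integrable_fourier n).re.div_const 2
  rw [integral_sub (hint _) (hint _), integral_div, integral_div,
    integral_fourier_re_eq_zero h1, integral_fourier_re_eq_zero h2]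
  simp

lemma fourier_nsmul (m : ℤ) (k : ℕ) (ξ : UnitAddCircle) :
    (fourier m (k • ξ) : ℂ) = fourier (m * k) ξ := by
  rw [fourier_apply, fourier_apply, ← natCast_zsmul, smul_smul]

lemma pow_three_ne {m : ℤ} (hm : m ≠ 0) {j k : ℕ} (h : j ≠ k) :
    m * ((3 ^ j : ℕ) : ℤ) + m * ((3 ^ k : ℕ) : ℤ) ≠ 0 ∧
      m * ((3 ^ j : ℕ) : ℤ) - m * ((3 ^ k : ℕ) : ℤ) ≠ 0 := by
  constructor
  · rw [← mul_add]
    apply mul_ne_zero hm
    positivity
  · rw [← mul_sub]
    apply mul_ne_zero hm
    rw [sub_ne_zero]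
    intro h'
    exact h (Nat.pow_right_injective (by norm_num : 2 ≤ 3) (by exact_mod_cast h'))

/-- For a.e. `ξ`, the averages of a nontrivial character along `3^k ξ` tend to `0`. -/
lemma ae_tendsto_fourier {m : ℤ} (hm : m ≠ 0) :
    ∀ᵐ ξ : UnitAddCircle, Tendsto (fun n : ℕ =>
      (∑ k ∈ range n, (fourier m ((3 ^ k : ℕ) • ξ) : ℂ)) / n) atTop (𝓝 0) := by
  have hmeas : ∀ n : ℤ, Measurable (fun ξ : UnitAddCircle => (fourier n ξ : ℂ)) := fun n =>
    (ContinuousMap.continuous _).measurable
  have hnorm : ∀ (n : ℤ) (ξ : UnitAddCircle), ‖(fourier n ξ : ℂ)‖ = 1 := by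
    intro n ξ
    rw [fourier_apply]; simp
  have h1 := slln_orthogonal (volume : Measure UnitAddCircle)
    (fun k ξ => (fourier (m * ((3 ^ k : ℕ) : ℤ)) ξ : ℂ).re)
    (fun k => Complex.measurable_re.comp (hmeas _))
    (fun k ξ => (Complex.abs_re_le_norm _).trans (hnorm _ _).le)
    (fun j k hjk => orth_re (pow_three_ne hm hjk).1 (pow_three_ne hm hjk).2)
  have h2 := slln_orthogonal (volume : Measure UnitAddCircle)
    (fun k ξ => (fourier (m * ((3 ^ k : ℕ) : ℤ)) ξ : ℂ).im)
    (fun k => Complex.measurable_im.comp (hmeas _))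
    (fun k ξ => (Complex.abs_im_le_norm _).trans (hnorm _ _).le)
    (fun j k hjk => orth_im (pow_three_ne hm hjk).1 (pow_three_ne hm hjk).2)
  filter_upwards [h1, h2] with ξ h1 h2
  have h3 := ((Complex.continuous_ofReal.tendsto 0).comp h1).add
    (((Complex.continuous_ofReal.tendsto 0).comp h2).mul_const Complex.I)
  simp only [Complex.ofReal_zero, zero_mul, add_zero] at h3
  refine h3.congr fun n => ?_
  simp only [Function.comp, Complex.ofReal_div, Complex.ofReal_sum, Complex.ofReal_natCast]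
  rw [div_mul_eq_mul_div, ← add_div, Finset.sum_mul, ← Finset.sum_add_distrib]
  congr 1
  apply Finset.sum_congr rfl
  intro k _
  rw [fourier_nsmul]
  exact Complex.re_add_im _

/-- For a.e. `ξ`, the sequence `3^k ξ` is equidistributed. -/
lemma ae_tendsto_average :
    ∀ᵐ ξ : UnitAddCircle, ∀ φ : C(UnitAddCircle, ℂ), Tendsto (fun n : ℕ =>
      (∑ k ∈ range n, φ ((3 ^ k : ℕ) • ξ)) / n) atTop (𝓝 (∫ t : UnitAddCircle, φ t)) := by
  have h1 : ∀ᵐ ξ : UnitAddCircle, ∀ m : ℤ, m ≠ 0 → Tendsto (fun n : ℕ =>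
      (∑ k ∈ range n, (fourier m ((3 ^ k : ℕ) • ξ) : ℂ)) / n) atTop (𝓝 0) := by
    rw [ae_all_iff]
    intro m
    by_cases hm : m = 0
    · exact Eventually.of_forall fun ξ h => absurd hm h
    · filter_upwards [ae_tendsto_fourier hm] with ξ h _ using h
  filter_upwards [h1] with ξ hξ
  -- the set of good functions is a closed subspace
  let S : Set C(UnitAddCircle, ℂ) := {φ | Tendsto (fun n : ℕ =>
      (∑ k ∈ range n, φ ((3 ^ k : ℕ) • ξ)) / n) atTop (𝓝 (∫ t : UnitAddCircle, φ t))}
  have hint : ∀ φ : C(UnitAddCircle, ℂ), Integrable (fun t => φ t) (volume : Measure UnitAddCircle) :=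
    fun φ => by
      refine Integrable.of_bound φ.continuous.aestronglyMeasurable ‖φ‖ ?_
      exact Eventually.of_forall fun t => φ.norm_coe_le_norm t
  let V : Submodule ℂ C(UnitAddCircle, ℂ) :=
    { carrier := S
      add_mem' := by
        intro φ ψ hφ hψ
        simp only [S, Set.mem_ofPred_eq] at hφ hψ ⊢
        have h := hφ.add hψ
        simp only [ContinuousMap.add_apply]
        rw [integral_add (hint φ) (hint ψ)]
        refine h.congr fun n => ?_
        rw [Finset.sum_add_distrib, add_div]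
      zero_mem' := by
        simp only [S, Set.mem_ofPred_eq, ContinuousMap.zero_apply, integral_zero]
        simp
      smul_mem' := by
        intro c φ hφ
        simp only [S, Set.mem_ofPred_eq] at hφ ⊢
        have h := hφ.const_mul c
        simp only [ContinuousMap.smul_apply, smul_eq_mul]
        rw [integral_const_mul]
        refine h.congr fun n => ?_
        rw [← Finset.mul_sum, mul_div_assoc] }
  have hVfour : ∀ m : ℤ, fourier m ∈ V := by
    intro m
    show Tendsto _ _ _
    by_cases hm : m = 0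
    · subst hm
      have : ∫ t : UnitAddCircle, (fourier 0 t : ℂ) = 1 := by
        simp_rw [fourier_zero]
        simp
      rw [this]
      refine tendsto_const_nhds.congr' ?_
      filter_upwards [eventually_gt_atTop 0] with n hn
      simp_rw [fourier_zero]
      have : (n : ℂ) ≠ 0 := by exact_mod_cast hn.ne'
      simp [this]
    · rw [integral_fourier_eq_zero hm]
      exact hξ m hm
  have hVclosed : IsClosed (V : Set C(UnitAddCircle, ℂ)) := by
    rw [← isSeqClosed_iff_isClosed]
    intro φs φ hφs hlim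
    show Tendsto _ _ _
    rw [Metric.tendsto_atTop]
    intro ε hε
    rw [Metric.tendsto_atTop] at hlim
    obtain ⟨N, hN⟩ := hlim (ε / 4) (by positivity)
    have hN' := hN N le_rfl
    rw [dist_eq_norm] at hN'
    have hgood : Tendsto (fun n : ℕ => (∑ k ∈ range n, φs N ((3 ^ k : ℕ) • ξ)) / n) atTop
        (𝓝 (∫ t : UnitAddCircle, φs N t)) := hφs N
    rw [Metric.tendsto_atTop] at hgood
    obtain ⟨M, hM⟩ := hgood (ε / 4) (by positivity)
    refine ⟨max M 1, fun n hn => ?_⟩
    have hnM := hM n (le_of_max_le_left hn)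
    have hn1 : 1 ≤ n := le_of_max_le_right hn
    have hnpos : (0 : ℝ) < n := by exact_mod_cast hn1
    have e1 : ‖(∑ k ∈ range n, φ ((3 ^ k : ℕ) • ξ)) / n -
        (∑ k ∈ range n, φs N ((3 ^ k : ℕ) • ξ)) / n‖ ≤ ε / 4 := by
      rw [← sub_div, ← Finset.sum_sub_distrib, norm_div, Complex.norm_natCast,
        div_le_iff₀ hnpos]
      calc ‖∑ k ∈ range n, (φ ((3 ^ k : ℕ) • ξ) - φs N ((3 ^ k : ℕ) • ξ))‖
          ≤ ∑ k ∈ range n, ‖φ ((3 ^ k : ℕ) • ξ) - φs N ((3 ^ k : ℕ) • ξ)‖ := norm_sum_le _ _
        _ ≤ ∑ _k ∈ range n, ε / 4 := by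
            apply Finset.sum_le_sum
            intro k _
            rw [norm_sub_rev]
            have := (φs N - φ).norm_coe_le_norm ((3 ^ k : ℕ) • ξ)
            rw [ContinuousMap.sub_apply] at this
            exact this.trans hN'.le
        _ = ε / 4 * n := by simp [mul_comm]
    have e2 : ‖(∫ t : UnitAddCircle, φs N t) - ∫ t : UnitAddCircle, φ t‖ ≤ ε / 4 := by
      rw [← integral_sub (hint _) (hint _)]
      refine (norm_integral_le_of_norm_le_const (C := ε / 4) ?_).trans ?_
      · exact Eventually.of_forall fun t => by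
          have := (φs N - φ).norm_coe_le_norm t
          rw [ContinuousMap.sub_apply] at this
          exact this.trans hN'.le
      · simp
    rw [dist_eq_norm] at hnM ⊢
    calc ‖(∑ k ∈ range n, φ ((3 ^ k : ℕ) • ξ)) / n - ∫ t : UnitAddCircle, φ t‖
        = ‖((∑ k ∈ range n, φ ((3 ^ k : ℕ) • ξ)) / n -
            (∑ k ∈ range n, φs N ((3 ^ k : ℕ) • ξ)) / n) +
          ((∑ k ∈ range n, φs N ((3 ^ k : ℕ) • ξ)) / n - ∫ t : UnitAddCircle, φs N t) +
          ((∫ t : UnitAddCircle, φs N t) - ∫ t : UnitAddCircle, φ t)‖ := by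
            congr 1; ring
      _ ≤ ε / 4 + ε / 4 + ε / 4 := by
          refine (norm_add_le _ _).trans (add_le_add ((norm_add_le _ _).trans
            (add_le_add e1 hnM.le)) e2)
      _ < ε := by linarith
  have hVtop : V = ⊤ := by
    have h2 : Submodule.span ℂ (Set.range (@fourier 1)) ≤ V := by
      rw [Submodule.span_le]
      rintro _ ⟨m, rfl⟩
      exact hVfour m
    have h3 : (Submodule.span ℂ (Set.range (@fourier 1))).topologicalClosure ≤ V :=
      Submodule.topologicalClosure_minimal _ h2 hVclosed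
    rw [span_fourier_closure_eq_top] at h3
    exact top_le_iff.1 h3
  intro φ
  have : φ ∈ V := by rw [hVtop]; exact Submodule.mem_top
  exact this

end Pool.Agent.Results.MP_a891d2_an.TorusExample
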