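import Mathlib
import Pool.Agent.Lib_MP_a891d2_an.Circ

/-!
# Basic facts on the map: continuity, derivative, behaviour on the circle `y = 0`
-/

namespace Pool.Agent.Results.MP_a891d2_an.TorusExample

open MeasureTheory Filter Topology Finset

/-- `cos (2πξ)` on the circle. -/
noncomputable def cc (ξ : UnitAddCircle) : ℝ := (fourier 1 ξ : ℂ).re

/-- the multiplier on the circle. -/
noncomputable def ca (ξ : UnitAddCircle) : ℝ := Real.exp (-1 + 3 * cc ξ)

lemma continuous_cc : Continuous cc :=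
  Complex.continuous_re.comp (ContinuousMap.continuous _)

lemma continuous_ca : Continuous ca := by
  unfold ca
  exact Real.continuous_exp.comp (continuous_const.add (continuous_const.mul continuous_cc))

lemma cc_coe (x : ℝ) : cc (x : UnitAddCircle) = Real.cos (2 * Real.pi * x) := by
  unfold cc
  rw [fourier_coe_apply]
  have : (2 * (Real.pi : ℂ) * Complex.I * ((1 : ℤ) : ℂ) * (x : ℂ) / ((1 : ℝ) : ℂ))
      = ((2 * Real.pi * x : ℝ) : ℂ) * Complex.I := by
    push_cast
    ring
  rw [this, Complex.exp_ofReal_mul_I_re]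

lemma ca_coe (x : ℝ) : ca (x : UnitAddCircle) = mult x := by
  unfold ca mult
  rw [cc_coe]

lemma ca_pos (ξ : UnitAddCircle) : 0 < ca ξ := Real.exp_pos _

lemma abs_cc_le (ξ : UnitAddCircle) : |cc ξ| ≤ 1 := by
  refine (Complex.abs_re_le_norm _).trans ?_
  rw [fourier_apply]
  simp

/-- `tan (πη)` on the circle (with the junk value `0` at `η = 1/2`). -/
noncomputable def ct (η : UnitAddCircle) : ℝ := Real.tan (Real.pi * (AddCircle.equivIco 1 0 η : ℝ))

lemma exists_equivIco_coe (x : ℝ) :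
    ∃ m : ℤ, ((AddCircle.equivIco 1 0 (x : UnitAddCircle) : ℝ)) = x + m := by
  obtain ⟨m, n, h⟩ := exists_rep_toTorus (x, 0)
  refine ⟨m, ?_⟩
  have := congrArg Prod.fst h
  simpa [rep, toTorus] using this

lemma coe_equivIco (η : UnitAddCircle) : ((AddCircle.equivIco 1 0 η : ℝ) : UnitAddCircle) = η := by
  simp

lemma ct_coe (y : ℝ) : ct (y : UnitAddCircle) = Real.tan (Real.pi * y) := by
  unfold ct
  obtain ⟨m, hm⟩ := exists_equivIco_coe y
  rw [hm]
  have : Real.pi * (y + m) = Real.pi * y + m * Real.pi := by ring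
  rw [this, Real.tan_periodic.int_mul m]

lemma map_fst (p : Torus) : (map p).1 = (3 : ℕ) • p.1 := by
  unfold map toTorus lift
  simp only
  have : p.1 = ((rep p).1 : UnitAddCircle) := by
    simp [rep]
  conv_rhs => rw [this]
  rw [← AddCircle.coe_nsmul]
  simp

lemma ct_map_snd (p : Torus) : ct (map p).2 = ca p.1 * ct p.2 := by
  have h1 : p = toTorus (rep p) := (toTorus_rep p).symm
  rw [h1, map_toTorus]
  simp only [toTorus, lift]
  rw [ct_coe, ct_coe, ca_coe, tan_fib]

lemma coe_eq_half_iff (y : ℝ) :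
    (y : UnitAddCircle) = ((1 / 2 : ℝ) : UnitAddCircle) ↔ Real.cos (Real.pi * y) = 0 := by
  rw [Real.cos_eq_zero_iff]
  rw [QuotientAddGroup.eq_iff_sub_mem, AddSubgroup.mem_zmultiples_iff]
  constructor
  · rintro ⟨k, hk⟩
    refine ⟨k, ?_⟩
    simp only [zsmul_eq_mul, mul_one] at hk
    have : y = 1 / 2 + k := by linarith
    rw [this]
    ring
  · rintro ⟨k, hk⟩
    refine ⟨k, ?_⟩
    simp only [zsmul_eq_mul, mul_one]
    have hpi := Real.pi_pos.ne'
    have : Real.pi * (y - 1 / 2 - k) = 0 := by linarith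
    rcases mul_eq_zero.1 this with h | h
    · exact absurd h hpi
    · linarith

lemma map_snd_eq_half_iff (p : Torus) :
    (map p).2 = ((1 / 2 : ℝ) : UnitAddCircle) ↔ p.2 = ((1 / 2 : ℝ) : UnitAddCircle) := by
  have h1 : p = toTorus (rep p) := (toTorus_rep p).symm
  rw [h1, map_toTorus]
  simp only [toTorus, lift]
  rw [coe_eq_half_iff, coe_eq_half_iff, cos_fib_eq_zero_iff]

lemma map_zero (ξ : UnitAddCircle) : map (ξ, 0) = ((3 : ℕ) • ξ, 0) := by
  have h : ((ξ, 0) : Torus) = toTorus ((AddCircle.equivIco 1 0 ξ : ℝ), 0) := by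
    simp [toTorus]
  rw [h, map_toTorus, lift_zero]
  simp only [toTorus, Prod.mk.injEq]
  constructor
  · conv_rhs => rw [← coe_equivIco ξ, ← AddCircle.coe_nsmul]
    simp
  · simp

lemma isOpenQuotientMap_toTorus : IsOpenQuotientMap toTorus :=
  (QuotientAddGroup.isOpenQuotientMap_mk (N := AddSubgroup.zmultiples (1 : ℝ))).prodMap
    (QuotientAddGroup.isOpenQuotientMap_mk (N := AddSubgroup.zmultiples (1 : ℝ)))

lemma continuous_toTorus : Continuous toTorus := isOpenQuotientMap_toTorus.continuous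

lemma continuous_map : Continuous map := by
  rw [← isOpenQuotientMap_toTorus.isQuotientMap.continuous_iff.symm.trans Iff.rfl]
  have : map ∘ toTorus = toTorus ∘ lift := by
    funext v
    exact map_toTorus v
  rw [this]
  exact continuous_toTorus.comp (contDiff_lift (n := 0)).continuous

/-! ### The derivative -/

/-- The diagonal linear map. -/
noncomputable def diag (a b : ℝ) : ℝ × ℝ →L[ℝ] ℝ × ℝ :=
  (a • ContinuousLinearMap.fst ℝ ℝ ℝ).prod (b • ContinuousLinearMap.snd ℝ ℝ ℝ)

@[simp] lemma diag_apply (a b : ℝ) (v : ℝ × ℝ) : diag a b v = (a * v.1, b * v.2) := by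
  simp [diag]

lemma diag_comp (a b a' b' : ℝ) : (diag a b).comp (diag a' b') = diag (a * a') (b * b') := by
  ext <;> simp

lemma hasFDerivAt_lift (v : ℝ × ℝ) : HasFDerivAt lift (fderiv ℝ lift v) v :=
  ((contDiff_lift (n := 1)).differentiable one_ne_zero v).hasFDerivAt

lemma fderiv_lift_fst (v w : ℝ × ℝ) : (fderiv ℝ lift v w).1 = 3 * w.1 := by
  have h1 : HasFDerivAt (fun u : ℝ × ℝ => (lift u).1)
      ((ContinuousLinearMap.fst ℝ ℝ ℝ).comp (fderiv ℝ lift v)) v :=
    (hasFDerivAt_lift v).fst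
  have h2 : HasFDerivAt (fun u : ℝ × ℝ => (lift u).1)
      ((3 : ℝ) • ContinuousLinearMap.fst ℝ ℝ ℝ) v := by
    unfold lift
    exact (hasFDerivAt_fst (𝕜 := ℝ) (p := v)).const_mul 3
  have h3 := h1.unique h2
  have h4 := congrArg (fun L : ℝ × ℝ →L[ℝ] ℝ => L w) h3
  simpa using h4

lemma fderiv_lift_vert (x y : ℝ) : fderiv ℝ lift (x, y) (0, 1) =
    (0, mult x / (Real.cos (Real.pi * y) ^ 2 + mult x ^ 2 * Real.sin (Real.pi * y) ^ 2)) := by
  have h0 : HasDerivAt (fun t : ℝ => ((x, t) : ℝ × ℝ)) ((0 : ℝ), (1 : ℝ)) y :=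
    (hasDerivAt_const y x).prodMk (hasDerivAt_id' y)
  have h1 : HasDerivAt (fun t : ℝ => lift (x, t)) (fderiv ℝ lift (x, y) (0, 1)) y :=
    (hasFDerivAt_lift (x, y)).comp_hasDerivAt y h0
  have h2 : HasDerivAt (fun t : ℝ => lift (x, t)) ((0 : ℝ),
      mult x / (Real.cos (Real.pi * y) ^ 2 + mult x ^ 2 * Real.sin (Real.pi * y) ^ 2)) y := by
    unfold lift
    exact (hasDerivAt_const y (3 * x)).prodMk (hasDerivAt_fib x y)
  exact h1.unique h2

lemma fderiv_lift_injective (v : ℝ × ℝ) : Function.Injective (fderiv ℝ lift v) := by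
  rw [injective_iff_map_eq_zero]
  intro w hw
  have h1 := fderiv_lift_fst v w
  rw [hw] at h1
  have hw1 : w.1 = 0 := by
    simp only [Prod.fst_zero] at h1
    linarith
  have hw2 : w = w.2 • ((0 : ℝ), (1 : ℝ)) := by
    ext <;> simp [hw1]
  rw [hw2, map_smul, show v = (v.1, v.2) from rfl, fderiv_lift_vert] at hw
  have h2 := congrArg Prod.snd hw
  simp only [Prod.smul_mk, smul_eq_mul, mul_zero, Prod.snd_zero] at h2
  have hpos : 0 < Real.cos (Real.pi * v.2) ^ 2 + mult v.1 ^ 2 * Real.sin (Real.pi * v.2) ^ 2 := by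
    have := one_add_quo_sq v
    rw [← this]
    have := den_pos v
    positivity
  have hm := mult_pos v.1
  have h3 : w.2 = 0 := by
    rcases mul_eq_zero.1 h2 with h | h
    · exact h
    · exfalso
      have : 0 < mult v.1 /
        (Real.cos (Real.pi * v.2) ^ 2 + mult v.1 ^ 2 * Real.sin (Real.pi * v.2) ^ 2) := by positivity
      linarith
  rw [hw2, h3]
  simp

lemma isEndomorphism_map : IsEndomorphism lift map where
  lift := map_toTorus
  smooth := contDiff_lift
  localDiffeo := by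
    intro v
    refine ⟨fderiv_lift_injective v, ?_⟩
    exact (LinearMap.injective_iff_surjective (f := (fderiv ℝ lift v).toLinearMap)).1
      (fderiv_lift_injective v)
  not_injective := by
    intro hinj
    have h1 : map (((1 / 3 : ℝ) : UnitAddCircle), 0) = map (0, 0) := by
      rw [map_zero, map_zero, smul_zero, ← AddCircle.coe_nsmul]
      simp only [Prod.mk.injEq, and_true]
      rw [AddCircle.coe_eq_zero_iff]
      exact ⟨1, by norm_num⟩
    have h2 := hinj h1
    simp only [Prod.mk.injEq, and_true] at h2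
    rw [AddCircle.coe_eq_zero_iff] at h2
    obtain ⟨n, hn⟩ := h2
    simp only [zsmul_eq_mul, mul_one] at hn
    have h3 : (n : ℝ) * 3 = 1 := by rw [hn]; norm_num
    have h4 : n * 3 = 1 := by exact_mod_cast h3
    omega

lemma fderiv_lift_zero (x : ℝ) : fderiv ℝ lift (x, 0) = diag 3 (mult x) := by
  have h0 : HasDerivAt (fun t : ℝ => ((t, 0) : ℝ × ℝ)) ((1 : ℝ), (0 : ℝ)) x :=
    (hasDerivAt_id' x).prodMk (hasDerivAt_const x 0)
  have hl : HasFDerivAt lift (fderiv ℝ lift ((x : ℝ), (0 : ℝ))) ((fun t : ℝ => ((t, 0) : ℝ × ℝ)) x) :=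
    hasFDerivAt_lift _
  have h1 : HasDerivAt (lift ∘ fun t : ℝ => ((t, 0) : ℝ × ℝ)) (fderiv ℝ lift (x, 0) (1, 0)) x :=
    hl.comp_hasDerivAt x h0
  have h2 : HasDerivAt (fun t : ℝ => lift (t, 0)) ((3 : ℝ), (0 : ℝ)) x := by
    simp_rw [lift_zero]
    have := ((hasDerivAt_id' x).const_mul 3).prodMk (hasDerivAt_const x (0 : ℝ))
    simpa using this
  have h3 := h1.unique h2
  have h4 := fderiv_lift_vert x 0
  simp only [mul_zero, Real.cos_zero, Real.sin_zero] at h4
  ext
  · simp [h3]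
  · simp [h3]
  · simp [h4]
  · simp [h4]

/-- the product of the multipliers along the orbit of `x`. -/
noncomputable def mprod (n : ℕ) (x : ℝ) : ℝ := ∏ k ∈ range n, mult (3 ^ k * x)

lemma lift_iterate_zero (n : ℕ) (x : ℝ) : lift^[n] (x, 0) = (3 ^ n * x, 0) := by
  induction n with
  | zero => simp
  | succ n ih =>
    rw [Function.iterate_succ_apply', ih, lift_zero]
    simp only [Prod.mk.injEq, and_true]
    ring

lemma hasFDerivAt_iterate (n : ℕ) (x : ℝ) :
    HasFDerivAt (lift^[n]) (diag (3 ^ n) (mprod n x)) (x, 0) := by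
  induction n with
  | zero =>
    have : diag (3 ^ 0) (mprod 0 x) = ContinuousLinearMap.id ℝ (ℝ × ℝ) := by
      ext <;> simp [mprod]
    rw [this]
    exact hasFDerivAt_id _
  | succ n ih =>
    rw [Function.iterate_succ']
    have h1 : HasFDerivAt lift (diag 3 (mult (3 ^ n * x))) (lift^[n] (x, 0)) := by
      rw [lift_iterate_zero, ← fderiv_lift_zero]
      exact hasFDerivAt_lift _
    have h2 := h1.comp (x, 0) ih
    rw [diag_comp] at h2
    have h3 : diag (3 ^ (n + 1)) (mprod (n + 1) x)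
        = diag (3 * 3 ^ n) (mult (3 ^ n * x) * mprod n x) := by
      unfold mprod
      rw [Finset.prod_range_succ, pow_succ]
      congr 1 <;> ring
    rw [h3]
    exact h2

lemma rep_zero (ξ : UnitAddCircle) : rep (ξ, 0) = ((AddCircle.equivIco 1 0 ξ : ℝ), 0) := by
  unfold rep
  simp only [Prod.mk.injEq, true_and]
  have h : (AddCircle.equivIco 1 0 (0 : UnitAddCircle) : ℝ) ∈ Set.Ico (0 : ℝ) (0 + 1) :=
    (AddCircle.equivIco 1 0 (0 : UnitAddCircle)).2
  obtain ⟨m, hm⟩ := exists_equivIco_coe 0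
  simp only [AddCircle.coe_zero, zero_add] at hm
  rw [hm] at h ⊢
  have h1 : (0 : ℝ) ≤ m := h.1
  have h2 : (m : ℝ) < 1 := by simpa using h.2
  have h3 : 0 ≤ m := by exact_mod_cast h1
  have h4 : m < 1 := by exact_mod_cast h2
  have : m = 0 := by omega
  simp [this]

/-- The derivative of the iterates on the circle `y = 0`. -/
lemma D_zero (n : ℕ) (ξ : UnitAddCircle) :
    D lift n (ξ, 0) = diag (3 ^ n) (∏ k ∈ range n, ca ((3 ^ k : ℕ) • ξ)) := by
  unfold D
  rw [rep_zero, (hasFDerivAt_iterate n _).fderiv]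
  unfold mprod
  congr 1
  apply Finset.prod_congr rfl
  intro k _
  conv_rhs => rw [← coe_equivIco ξ, ← AddCircle.coe_nsmul]
  rw [ca_coe]
  congr 1
  simp

end Pool.Agent.Results.MP_a891d2_an.TorusExample
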