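import Mathlib
import Pool.Agent.Lib_MP_a891d2_an.Facts

/-!
# The solenoid: the natural extension of `ξ ↦ 3 ξ` on the circle, with its Haar measure
-/

namespace Pool.Agent.Results.MP_a891d2_an.TorusExample

open MeasureTheory Filter Topology Finset

/-- The `3`-adic solenoid. -/
def Sol : AddSubgroup (ℕ → UnitAddCircle) where
  carrier := {x | ∀ n, (3 : ℕ) • x (n + 1) = x n}
  zero_mem' := by intro n; simp
  add_mem' := by
    intro a b ha hb n
    simp only [Pi.add_apply, smul_add]
    rw [ha n, hb n]
  neg_mem' := by
    intro a ha n
    simp only [Pi.neg_apply, smul_neg]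
    rw [ha n]

lemma Sol.prop (x : Sol) (n : ℕ) : (3 : ℕ) • x.1 (n + 1) = x.1 n := x.2 n

lemma Sol.pow (x : Sol) (n k : ℕ) : (3 ^ k : ℕ) • x.1 (n + k) = x.1 n := by
  induction k with
  | zero => simp
  | succ k ih =>
    rw [← add_assoc, pow_succ, mul_smul, x.prop, ih]

lemma isClosed_Sol : IsClosed (Sol : Set (ℕ → UnitAddCircle)) := by
  have : (Sol : Set (ℕ → UnitAddCircle)) =
      ⋂ n, {x : ℕ → UnitAddCircle | (3 : ℕ) • x (n + 1) = x n} := by
    ext x
    simp only [Set.mem_iInter, Set.mem_ofPred_eq]
    rfl
  rw [this]
  apply isClosed_iInter
  intro n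
  exact isClosed_eq ((continuous_nsmul 3).comp (continuous_apply (n + 1))) (continuous_apply n)

instance instCompactSol : CompactSpace Sol := isCompact_iff_compactSpace.1 isClosed_Sol.isCompact

instance instBorelSeqCirc : BorelSpace (ℕ → UnitAddCircle) := Pi.borelSpace

instance instBorelSol : BorelSpace Sol := Subtype.borelSpace _

/-- Normalised Haar measure of the solenoid. -/
noncomputable def haarSol : Measure Sol := Measure.addHaarMeasure ⊤

instance instHaarSol : haarSol.IsAddHaarMeasure := by unfold haarSol; infer_instance

lemma haarSol_univ : haarSol Set.univ = 1 := by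
  have := Measure.addHaarMeasure_self (K₀ := (⊤ : TopologicalSpace.PositiveCompacts Sol))
  simpa [haarSol] using this

instance instProbSol : IsProbabilityMeasure haarSol := ⟨haarSol_univ⟩

/-- The one-parameter subgroup `s ↦ (s / 3^n)_n`. -/
noncomputable def flow (s : ℝ) : Sol :=
  ⟨fun n => ((s / 3 ^ n : ℝ) : UnitAddCircle), by
    intro n
    rw [← AddCircle.coe_nsmul]
    congr 1
    simp only [nsmul_eq_mul, Nat.cast_ofNat]
    field_simp
    ring⟩

lemma flow_apply (s : ℝ) (n : ℕ) : (flow s).1 n = ((s / 3 ^ n : ℝ) : UnitAddCircle) := rfl

lemma continuous_flow : Continuous flow := by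
  unfold flow
  apply Continuous.subtype_mk
  apply continuous_pi
  intro n
  exact (AddCircle.continuous_mk' 1).comp (continuous_id.div_const _)

/-- The coordinate projections as homomorphisms. -/
def proj (n : ℕ) : Sol →+ UnitAddCircle where
  toFun x := x.1 n
  map_zero' := rfl
  map_add' _ _ := rfl

lemma continuous_proj (n : ℕ) : Continuous (proj n) :=
  (continuous_apply n).comp continuous_subtype_val

lemma proj_surjective (n : ℕ) : Function.Surjective (proj n) := by
  intro t
  refine ⟨flow (3 ^ n * (AddCircle.equivIco 1 0 t : ℝ)), ?_⟩
  show (((3 ^ n * (AddCircle.equivIco 1 0 t : ℝ)) / 3 ^ n : ℝ) : UnitAddCircle) = t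
  rw [mul_div_cancel_left₀ _ (by positivity)]
  simp

lemma measurePreserving_proj (n : ℕ) :
    MeasurePreserving (fun x : Sol => x.1 n) haarSol (volume : Measure UnitAddCircle) :=
  AddMonoidHom.measurePreserving (f := proj n) (continuous_proj n) (proj_surjective n)
    (by rw [haarSol_univ, UnitAddCircle.measure_univ])

/-- Multiplication by `3` on the solenoid. -/
def triple : Sol →+ Sol where
  toFun x := (3 : ℕ) • x
  map_zero' := by simp
  map_add' _ _ := by simp

lemma triple_surjective : Function.Surjective triple := by
  intro x
  refine ⟨⟨fun n => x.1 (n + 1), fun n => x.2 (n + 1)⟩, ?_⟩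
  apply Subtype.ext
  funext n
  exact x.2 n

lemma continuous_triple : Continuous triple := by
  show Continuous fun x : Sol => (3 : ℕ) • x
  exact continuous_nsmul 3

lemma measurePreserving_triple : MeasurePreserving triple haarSol haarSol :=
  AddMonoidHom.measurePreserving continuous_triple triple_surjective rfl

/-- The embedding of the solenoid in the natural extension of the torus map. -/
def emb (x : Sol) : ℕ → Torus := fun n => (x.1 n, 0)

lemma continuous_emb : Continuous emb := by
  unfold emb
  apply continuous_pi
  intro n
  exact (continuous_proj n).prodMk continuous_const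

lemma emb_mem (x : Sol) : emb x ∈ naturalExtension map := by
  intro n
  show map (x.1 (n + 1), 0) = (x.1 n, 0)
  rw [map_zero, x.prop]

lemma shift_emb (x : Sol) : shift map (emb x) = emb (triple x) := by
  funext n
  cases n with
  | zero =>
    show map (x.1 0, 0) = (((3 : ℕ) • x : Sol).1 0, 0)
    rw [map_zero]
    rfl
  | succ n =>
    show (x.1 n, 0) = (((3 : ℕ) • x : Sol).1 (n + 1), 0)
    rw [← x.prop]
    rfl

lemma measurable_emb : Measurable emb := by
  unfold emb
  apply measurable_pi_lambda
  intro n
  exact ((continuous_proj n).measurable).prodMk measurable_const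

/-- The invariant measure: Lebesgue measure on the circle `y = 0`. -/
noncomputable def mu : Measure Torus :=
  (volume : Measure UnitAddCircle).map (fun ξ => ((ξ, 0) : Torus))

/-- The lift of `mu` to the natural extension. -/
noncomputable def mu' : Measure (ℕ → Torus) := haarSol.map emb

lemma measurable_circle : Measurable (fun ξ : UnitAddCircle => ((ξ, 0) : Torus)) :=
  measurable_id.prodMk measurable_const

instance instProbMu : IsProbabilityMeasure mu :=
  Measure.isProbabilityMeasure_map measurable_circle.aemeasurable

instance instProbMu' : IsProbabilityMeasure mu' :=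
  Measure.isProbabilityMeasure_map measurable_emb.aemeasurable

lemma measurable_shift : Measurable (shift map) := by
  apply measurable_pi_lambda
  intro n
  cases n with
  | zero => exact continuous_map.measurable.comp (measurable_pi_apply 0)
  | succ n => exact measurable_pi_apply n

lemma isNaturalLift : IsNaturalLift map mu mu' where
  concentrated := by
    unfold mu'
    have hcl : MeasurableSet (naturalExtension map) := by
      have : naturalExtension map = ⋂ n, {x : ℕ → Torus | map (x (n + 1)) = x n} := by
        ext x
        simp [naturalExtension]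
      rw [this]
      apply MeasurableSet.iInter
      intro n
      exact measurableSet_eq_fun (continuous_map.measurable.comp (measurable_pi_apply (n + 1)))
        (measurable_pi_apply n)
    exact (ae_map_iff (p := fun x => x ∈ naturalExtension map) measurable_emb.aemeasurable hcl).2
      (Eventually.of_forall emb_mem)
  invariant := by
    unfold mu'
    rw [Measure.map_map measurable_shift measurable_emb]
    have : shift map ∘ emb = emb ∘ triple := by
      funext x
      exact shift_emb x
    rw [this, ← Measure.map_map measurable_emb continuous_triple.measurable,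
      measurePreserving_triple.map_eq]
  projects := by
    unfold mu' mu
    rw [Measure.map_map (measurable_pi_apply 0) measurable_emb, ← (measurePreserving_proj 0).map_eq,
      Measure.map_map measurable_circle (measurePreserving_proj 0).measurable]
    rfl

lemma ergodic_map : Ergodic map mu := by
  have h1 : Ergodic (fun ξ : UnitAddCircle => (3 : ℕ) • ξ) volume :=
    AddCircle.ergodic_nsmul (by norm_num)
  have h2 : MeasurePreserving (fun ξ : UnitAddCircle => ((ξ, 0) : Torus)) volume mu :=
    ⟨measurable_circle, rfl⟩
  apply h2.ergodic_of_ergodic_semiconj h1 continuous_map.measurable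
  intro ξ
  exact (map_zero ξ).symm

end Pool.Agent.Results.MP_a891d2_an.TorusExample
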