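import Mathlib
import Pool.Agent.Lib_MP_a891d2_an.Solenoid

/-!
# Lyapunov exponents
-/

namespace Pool.Agent.Results.MP_a891d2_an.TorusExample

open MeasureTheory Filter Topology Finset

instance instBorelSeqTorus : BorelSpace (ℕ → Torus) := Pi.borelSpace

lemma emb_injective : Function.Injective emb := by
  intro x y h
  apply Subtype.ext
  funext n
  exact congrArg Prod.fst (congrFun h n)

lemma measurableEmbedding_emb : MeasurableEmbedding emb :=
  (continuous_emb.isClosedEmbedding emb_injective).measurableEmbedding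

lemma ae_mu'_iff {p : (ℕ → Torus) → Prop} : (∀ᵐ x ∂mu', p x) ↔ ∀ᵐ x ∂haarSol, p (emb x) :=
  measurableEmbedding_emb.ae_map_iff

lemma measurable_cc : Measurable cc := continuous_cc.measurable

lemma cc_nsmul (k : ℕ) (ξ : UnitAddCircle) : cc (k • ξ) = (fourier (k : ℤ) ξ : ℂ).re := by
  unfold cc
  rw [fourier_nsmul]
  simp

/-- Forward averages of `cos (2πξ)` vanish almost surely. -/
lemma ae_forward : ∀ᵐ ξ : UnitAddCircle,
    Tendsto (fun n : ℕ => (∑ k ∈ range n, cc ((3 ^ k : ℕ) • ξ)) / n) atTop (𝓝 0) := by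
  filter_upwards [ae_tendsto_fourier (m := 1) one_ne_zero] with ξ h
  have h2 := (Complex.continuous_re.tendsto 0).comp h
  simp only [Complex.zero_re] at h2
  refine h2.congr fun n => ?_
  simp only [Function.comp, cc]
  rw [← Complex.re_sum]
  exact Complex.div_natCast_re _ _

/-- Backward averages of `cos (2πξ)` vanish almost surely. -/
lemma ae_backward : ∀ᵐ x ∂haarSol,
    Tendsto (fun n : ℕ => (∑ k ∈ range n, cc (x.1 (k + 1))) / n) atTop (𝓝 0) := by
  apply slln_orthogonal haarSol (fun k x => cc (x.1 (k + 1)))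
  · intro k
    exact measurable_cc.comp (measurePreserving_proj (k + 1)).measurable
  · intro k x
    exact abs_cc_le _
  · have key : ∀ j k : ℕ, j < k → ∫ x : Sol, cc (x.1 (j + 1)) * cc (x.1 (k + 1)) ∂haarSol = 0 := by
      intro j k hjk
      have h1 : ∀ x : Sol, cc (x.1 (j + 1)) * cc (x.1 (k + 1)) =
          (fun ξ : UnitAddCircle => (fourier ((3 ^ (k - j) : ℕ) : ℤ) ξ : ℂ).re *
            (fourier 1 ξ : ℂ).re) (x.1 (k + 1)) := by
        intro x
        have h2 := Sol.pow x (j + 1) (k - j)
        have h3 : j + 1 + (k - j) = k + 1 := by omega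
        rw [h3] at h2
        rw [← h2, cc_nsmul]
        rfl
      simp_rw [h1]
      rw [← integral_map (φ := fun x : Sol => x.1 (k + 1))
        (f := fun ξ : UnitAddCircle => (fourier ((3 ^ (k - j) : ℕ) : ℤ) ξ : ℂ).re *
            (fourier 1 ξ : ℂ).re) (measurePreserving_proj (k + 1)).measurable.aemeasurable,
        (measurePreserving_proj (k + 1)).map_eq]
      · have h4 := pow_three_ne (m := 1) one_ne_zero (j := k - j) (k := 0) (by omega)
        simp only [one_mul, pow_zero, Nat.cast_one] at h4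
        exact orth_re h4.1 h4.2
      · exact ((Complex.continuous_re.comp (ContinuousMap.continuous _)).mul
          (Complex.continuous_re.comp (ContinuousMap.continuous _))).aestronglyMeasurable
    intro j k hjk
    rcases lt_or_gt_of_ne hjk with h | h
    · exact key j k h
    · rw [← key k j h]
      apply integral_congr_ae
      exact Eventually.of_forall fun x => mul_comm _ _

lemma prod_ca (s : Finset ℕ) (g : ℕ → UnitAddCircle) :
    ∏ k ∈ s, ca (g k) = Real.exp (-(s.card : ℝ) + 3 * ∑ k ∈ s, cc (g k)) := by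
  unfold ca
  rw [← Real.exp_sum, Finset.sum_add_distrib, ← Finset.mul_sum]
  simp

lemma inverse_diag {a b : ℝ} (ha : a ≠ 0) (hb : b ≠ 0) :
    (diag a b).inverse = diag a⁻¹ b⁻¹ := by
  apply ContinuousLinearMap.inverse_eq
  · rw [diag_comp, mul_inv_cancel₀ ha, mul_inv_cancel₀ hb]
    ext <;> simp
  · rw [diag_comp, inv_mul_cancel₀ ha, inv_mul_cancel₀ hb]
    ext <;> simp

lemma norm_mk_zero (a : ℝ) : ‖((a, 0) : ℝ × ℝ)‖ = |a| := by
  simp [Prod.norm_def]

lemma norm_zero_mk (a : ℝ) : ‖((0, a) : ℝ × ℝ)‖ = |a| := by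
  simp [Prod.norm_def]

lemma exponent_horizontal (x : Sol) : HasExponent lift (emb x) (1, 0) (Real.log 3) := by
  have hpos : ∀ n : ℕ, (0 : ℝ) < 3 ^ n := fun n => by positivity
  constructor
  · refine tendsto_const_nhds.congr' ?_
    filter_upwards [eventually_gt_atTop 0] with n hn
    show _ = Real.log ‖D lift n (x.1 0, 0) (1, 0)‖ / n
    rw [D_zero, diag_apply]
    simp only [mul_one, mul_zero]
    rw [norm_mk_zero, abs_of_pos (hpos n), Real.log_pow]
    have : (n : ℝ) ≠ 0 := by exact_mod_cast hn.ne'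
    field_simp
  · refine tendsto_const_nhds.congr' ?_
    filter_upwards [eventually_gt_atTop 0] with n hn
    show _ = Real.log ‖(D lift n (x.1 n, 0)).inverse (1, 0)‖ / n
    rw [D_zero, inverse_diag (hpos n).ne' (Finset.prod_pos fun k _ => ca_pos _).ne', diag_apply]
    simp only [mul_one, mul_zero]
    rw [norm_mk_zero, abs_of_pos (inv_pos.2 (hpos n)), Real.log_inv, Real.log_pow]
    have : (n : ℝ) ≠ 0 := by exact_mod_cast hn.ne'
    field_simp

lemma exponent_vertical (x : Sol)
    (h1 : Tendsto (fun n : ℕ => (∑ k ∈ range n, cc ((3 ^ k : ℕ) • x.1 0)) / n) atTop (𝓝 0))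
    (h2 : Tendsto (fun n : ℕ => (∑ k ∈ range n, cc (x.1 (k + 1))) / n) atTop (𝓝 0)) :
    HasExponent lift (emb x) (0, 1) (-1) := by
  have hpos : ∀ n : ℕ, (0 : ℝ) < 3 ^ n := fun n => by positivity
  constructor
  · have h3 := (h1.const_mul 3).const_add (-1)
    simp only [mul_zero, add_zero] at h3
    refine h3.congr' ?_
    filter_upwards [eventually_gt_atTop 0] with n hn
    show _ = Real.log ‖D lift n (x.1 0, 0) (0, 1)‖ / n
    rw [D_zero, diag_apply]
    simp only [mul_one, mul_zero]
    rw [norm_zero_mk, abs_of_pos (Finset.prod_pos fun k _ => ca_pos _), prod_ca, Real.log_exp]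
    have : (n : ℝ) ≠ 0 := by exact_mod_cast hn.ne'
    simp only [card_range]
    field_simp
  · have h3 := (h2.const_mul (-3)).const_add 1
    simp only [mul_zero, add_zero] at h3
    rw [neg_neg]
    refine h3.congr' ?_
    filter_upwards [eventually_gt_atTop 0] with n hn
    show _ = Real.log ‖(D lift n (x.1 n, 0)).inverse (0, 1)‖ / n
    rw [D_zero, inverse_diag (hpos n).ne' (Finset.prod_pos fun k _ => ca_pos _).ne', diag_apply]
    simp only [mul_one, mul_zero]
    rw [norm_zero_mk, abs_of_pos (inv_pos.2 (Finset.prod_pos fun k _ => ca_pos _)), Real.log_inv]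
    have h4 : ∏ k ∈ range n, ca ((3 ^ k : ℕ) • x.1 n) = ∏ k ∈ range n, ca (x.1 (k + 1)) := by
      rw [← Finset.prod_range_reflect (fun k => ca (x.1 (k + 1)))]
      apply Finset.prod_congr rfl
      intro k hk
      have hk' := Finset.mem_range.1 hk
      have h5 := Sol.pow x (n - 1 - k + 1) k
      have h6 : n - 1 - k + 1 + k = n := by omega
      rw [h6] at h5
      rw [h5]
    rw [h4, prod_ca, Real.log_exp]
    have : (n : ℝ) ≠ 0 := by exact_mod_cast hn.ne'
    simp only [card_range]
    field_simp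
    ring

lemma hasLyapunovExponents : HasLyapunovExponents lift mu' (-1) (Real.log 3) := by
  unfold HasLyapunovExponents
  rw [ae_mu'_iff]
  have h1 := (measurePreserving_proj 0).quasiMeasurePreserving.ae ae_forward
  filter_upwards [h1, ae_backward] with x h1 h2
  refine ⟨(0, 1), (1, 0), ?_, exponent_vertical x h1 h2, exponent_horizontal x⟩
  rw [LinearIndependent.pair_iff]
  intro s t hst
  simp only [Prod.smul_mk, smul_eq_mul, mul_zero, mul_one, Prod.mk_add_mk, zero_add, add_zero,
    Prod.mk_eq_zero] at hst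
  exact ⟨hst.2, hst.1⟩

end Pool.Agent.Results.MP_a891d2_an.TorusExample
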