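import Mathlib
import Pool.Agent.Lib_MP_a891d2_an.Exponents

/-!
# There is no dominated splitting over the support
-/

namespace Pool.Agent.Results.MP_a891d2_an.TorusExample

open MeasureTheory Filter Topology Finset

lemma emb_mem_support (x : Sol) : emb x ∈ mu'.support := by
  rw [Measure.mem_support_iff_forall]
  intro U hU
  obtain ⟨V, hVU, hV, hxV⟩ := mem_nhds_iff.1 hU
  refine lt_of_lt_of_le ?_ (measure_mono hVU)
  unfold mu'
  rw [Measure.map_apply measurable_emb hV.measurableSet]
  exact (hV.preimage continuous_emb).measure_pos haarSol ⟨x, hxV⟩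

lemma triple_flow (s : ℝ) : triple (flow s) = flow (3 * s) := by
  apply Subtype.ext
  funext n
  show (3 : ℕ) • (flow s).1 n = (flow (3 * s)).1 n
  rw [flow_apply, flow_apply, ← AddCircle.coe_nsmul]
  congr 1
  simp only [nsmul_eq_mul, Nat.cast_ofNat]
  ring

lemma D_one (x : Sol) : D lift 1 (emb x 0) = diag 3 (ca (x.1 0)) := by
  show D lift 1 (x.1 0, 0) = _
  rw [D_zero]
  simp

/-- the fixed point `(1/2, 1/2, …)` of the solenoid. -/
noncomputable def qhat : Sol :=
  ⟨fun _ => ((1 / 2 : ℝ) : UnitAddCircle), by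
    intro n
    rw [← AddCircle.coe_nsmul, QuotientAddGroup.eq_iff_sub_mem, AddSubgroup.mem_zmultiples_iff]
    exact ⟨1, by norm_num⟩⟩

lemma triple_qhat : triple qhat = qhat := by
  apply Subtype.ext
  funext n
  exact qhat.2 n

lemma ca_zero_gt : 3 < ca 0 := by
  unfold ca
  have : cc 0 = 1 := by
    have := cc_coe 0
    simpa using this
  rw [this]
  have h := Real.add_one_lt_exp (x := (-1 + 3 * 1)) (by norm_num)
  linarith

lemma ca_half_lt : ca ((1 / 2 : ℝ) : UnitAddCircle) < 3 := by
  unfold ca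
  have : cc ((1 / 2 : ℝ) : UnitAddCircle) = -1 := by
    rw [cc_coe]
    have : 2 * Real.pi * (1 / 2) = Real.pi := by ring
    rw [this, Real.cos_pi]
  rw [this]
  have h : Real.exp (-1 + 3 * (-1)) ≤ 1 := Real.exp_le_one_iff.2 (by norm_num)
  linarith

lemma tendsto_forward :
    Tendsto (fun m : ℕ => emb (flow (3 ^ m / 2))) atTop (𝓝 (emb qhat)) := by
  rw [tendsto_pi_nhds]
  intro n
  refine tendsto_const_nhds.congr' ?_
  filter_upwards [eventually_ge_atTop n] with m hm
  show (((1 / 2 : ℝ) : UnitAddCircle), (0 : UnitAddCircle)) = ((flow (3 ^ m / 2)).1 n, 0)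
  rw [flow_apply]
  simp only [Prod.mk.injEq, and_true]
  symm
  rw [QuotientAddGroup.eq_iff_sub_mem, AddSubgroup.mem_zmultiples_iff]
  obtain ⟨k, rfl⟩ := Nat.exists_eq_add_of_le hm
  have hodd : Odd (3 ^ k) := Odd.pow (by decide)
  obtain ⟨j, hj⟩ := hodd
  refine ⟨j, ?_⟩
  have hj' : (3 : ℝ) ^ k = 2 * j + 1 := by exact_mod_cast hj
  have h3 : (3 : ℝ) ^ n ≠ 0 := by positivity
  rw [pow_add, hj']
  simp only [zsmul_eq_mul, Int.cast_natCast, mul_one]
  field_simp
  ring

lemma tendsto_backward :
    Tendsto (fun m : ℕ => emb (flow (1 / (2 * 3 ^ m)))) atTop (𝓝 (emb 0)) := by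
  have h1 : Tendsto (fun m : ℕ => (1 / (2 * 3 ^ m) : ℝ)) atTop (𝓝 0) := by
    have h2 : Tendsto (fun m : ℕ => (1 / 2 : ℝ) * (1 / 3) ^ m) atTop (𝓝 (1 / 2 * 0)) :=
      (tendsto_pow_atTop_nhds_zero_of_lt_one (by norm_num) (by norm_num)).const_mul _
    rw [mul_zero] at h2
    refine h2.congr fun m => ?_
    rw [one_div_pow]
    field_simp
  have h0 : flow 0 = 0 := by
    apply Subtype.ext
    funext n
    rw [flow_apply]
    simp
  have := (continuous_emb.comp continuous_flow).tendsto 0
  simp only [Function.comp, h0] at this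
  exact this.comp h1

/-- growth comparison. -/
lemma not_dominated {a b C θ : ℝ} (ha : 0 < a) (hab : a < b) (hθ0 : 0 < θ) (hθ : θ < 1)
    (h : ∀ n : ℕ, b ^ n ≤ C * θ ^ n * a ^ n) : False := by
  have h1 : ∀ n : ℕ, 1 ≤ C * θ ^ n := by
    intro n
    have h2 := h n
    have h3 : a ^ n ≤ b ^ n := pow_le_pow_left₀ ha.le hab.le n
    have h4 : (0 : ℝ) < a ^ n := by positivity
    have h5 : 1 * a ^ n ≤ C * θ ^ n * a ^ n := by linarith
    exact le_of_mul_le_mul_right h5 h4
  have h2 : Tendsto (fun n : ℕ => C * θ ^ n) atTop (𝓝 (C * 0)) :=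
    (tendsto_pow_atTop_nhds_zero_of_lt_one hθ0.le hθ).const_mul _
  rw [mul_zero] at h2
  have h3 := ge_of_tendsto' h2 h1
  linarith

/-- A line invariant under `diag 3 a` with `a ≠ 3` is horizontal or vertical. -/
lemma invariant_line {a : ℝ} (ha : a ≠ 3) {s : ℝ × ℝ}
    (h : (Submodule.span ℝ {s}).map (diag 3 a).toLinearMap = Submodule.span ℝ {s}) :
    s.1 = 0 ∨ s.2 = 0 := by
  have h1 : diag 3 a s ∈ Submodule.span ℝ {s} := by
    rw [← h]
    exact Submodule.mem_map_of_mem (Submodule.mem_span_singleton_self s)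
  rw [Submodule.mem_span_singleton] at h1
  obtain ⟨c, hc⟩ := h1
  rw [diag_apply, Prod.ext_iff] at hc
  simp only [Prod.smul_fst, Prod.smul_snd, smul_eq_mul] at hc
  by_contra hcon
  push Not at hcon
  have e1 : c = 3 := mul_right_cancel₀ hcon.1 hc.1
  have e2 : c = a := mul_right_cancel₀ hcon.2 hc.2
  exact ha (e2.symm.trans e1)

lemma D_fixed {x : Sol} (hx : triple x = x) (n : ℕ) :
    D lift n (emb x 0) = diag (3 ^ n) (ca (x.1 0) ^ n) := by
  show D lift n (x.1 0, 0) = _
  rw [D_zero]
  congr 1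
  have h3 : (3 : ℕ) • x.1 0 = x.1 0 := congrFun (congrArg Subtype.val hx) 0
  have h4 : ∀ k : ℕ, (3 ^ k : ℕ) • x.1 0 = x.1 0 := by
    intro k
    induction k with
    | zero => simp
    | succ k ih => rw [pow_succ, mul_smul, h3, ih]
  simp [h4]

theorem no_dominated_splitting :
    ¬ ∃ E E' : (ℕ → Torus) → Submodule ℝ (ℝ × ℝ),
      IsDominatedSplitting lift map mu'.support E E' := by
  rintro ⟨E, E', hE⟩
  obtain ⟨C, θ, hC, hθ0, hθ1, hdom⟩ := hE.dominated
  -- structure at fixed points
  have hfix : ∀ x : Sol, triple x = x → ca (x.1 0) ≠ 3 →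
      ((E (emb x) = Submodule.span ℝ {((1 : ℝ), (0 : ℝ))} ∧
        E' (emb x) = Submodule.span ℝ {((0 : ℝ), (1 : ℝ))}) ∨
      (E (emb x) = Submodule.span ℝ {((0 : ℝ), (1 : ℝ))} ∧
        E' (emb x) = Submodule.span ℝ {((1 : ℝ), (0 : ℝ))})) := by
    intro x hx ha
    have hmem := emb_mem_support x
    have hshift : shift map (emb x) = emb x := by rw [shift_emb, hx]
    have key : ∀ G : (ℕ → Torus) → Submodule ℝ (ℝ × ℝ),
        IsContinuousLineField mu'.support G →
        (∀ y ∈ mu'.support, (G y).map (D lift 1 (y 0)).toLinearMap = G (shift map y)) →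
        G (emb x) = Submodule.span ℝ {((1 : ℝ), (0 : ℝ))} ∨
          G (emb x) = Submodule.span ℝ {((0 : ℝ), (1 : ℝ))} := by
      intro G hG hGinv
      obtain ⟨U, hU, s, _, hs⟩ := hG (emb x) hmem
      obtain ⟨hs0, hs1⟩ := hs (emb x) ⟨hmem, mem_of_mem_nhds hU⟩
      have hinv := hGinv (emb x) hmem
      rw [hshift, D_one, hs1] at hinv
      have hspan : ∀ (c : ℝ) (v : ℝ × ℝ), c ≠ 0 →
          Submodule.span ℝ {c • v} = Submodule.span ℝ {v} := by
        intro c v hc
        exact Submodule.span_singleton_smul_eq (IsUnit.mk0 c hc) v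
      rcases invariant_line ha hinv with h | h
      · right
        rw [hs1]
        have h2 : (s (emb x)).2 ≠ 0 := by
          intro h2
          exact hs0 (Prod.ext h h2)
        have h3 : s (emb x) = (s (emb x)).2 • ((0 : ℝ), (1 : ℝ)) := by
          ext <;> simp [h]
        rw [h3, hspan _ _ h2]
      · left
        rw [hs1]
        have h2 : (s (emb x)).1 ≠ 0 := by
          intro h2
          exact hs0 (Prod.ext h2 h)
        have h3 : s (emb x) = (s (emb x)).1 • ((1 : ℝ), (0 : ℝ)) := by
          ext <;> simp [h]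
        rw [h3, hspan _ _ h2]
    have hcompl := hE.isCompl (emb x) hmem
    have hne : ∀ v : ℝ × ℝ, v ≠ 0 → E (emb x) = Submodule.span ℝ {v} →
        E' (emb x) = Submodule.span ℝ {v} → False := by
      intro v hv h1 h2
      rw [h1, h2] at hcompl
      have h3 := hcompl.disjoint
      rw [Submodule.disjoint_def] at h3
      exact hv (h3 v (Submodule.mem_span_singleton_self v) (Submodule.mem_span_singleton_self v))
    rcases key E hE.continuous_fst hE.invariant_fst with h1 | h1 <;>
    rcases key E' hE.continuous_snd hE.invariant_snd with h2 | h2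
    · exact (hne _ (by simp) h1 h2).elim
    · exact Or.inl ⟨h1, h2⟩
    · exact Or.inr ⟨h1, h2⟩
    · exact (hne _ (by simp) h1 h2).elim
  -- at the fixed point `0`, `E` is horizontal
  have hp : E (emb 0) = Submodule.span ℝ {((1 : ℝ), (0 : ℝ))} := by
    have h0 : triple 0 = 0 := _root_.map_zero triple
    have ha : 3 < ca ((0 : Sol).1 0) := ca_zero_gt
    rcases hfix 0 h0 ha.ne' with h | ⟨h1, h2⟩
    · exact h.1
    · exfalso
      apply not_dominated (a := 3) (b := ca ((0 : Sol).1 0)) (C := C) (by norm_num) ha hθ0 hθ1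
      intro n
      have h3 := hdom (emb 0) (emb_mem_support 0) n (0, 1)
        (by rw [h1]; exact Submodule.mem_span_singleton_self _) (1, 0)
        (by rw [h2]; exact Submodule.mem_span_singleton_self _) (by simp [Prod.norm_def])
        (by simp [Prod.norm_def])
      rw [D_fixed h0, diag_apply, diag_apply] at h3
      simp only [mul_zero, mul_one] at h3
      rw [norm_zero_mk, norm_mk_zero, abs_of_pos (pow_pos (ca_pos _) n),
        abs_of_pos (by positivity)] at h3
      exact h3
  -- at the fixed point `1/2`, `E` is vertical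
  have hq : E (emb qhat) = Submodule.span ℝ {((0 : ℝ), (1 : ℝ))} := by
    have ha : ca (qhat.1 0) < 3 := ca_half_lt
    rcases hfix qhat triple_qhat ha.ne with ⟨h1, h2⟩ | h
    · exfalso
      apply not_dominated (b := 3) (a := ca (qhat.1 0)) (C := C) (ca_pos _) ha hθ0 hθ1
      intro n
      have h3 := hdom (emb qhat) (emb_mem_support qhat) n (1, 0)
        (by rw [h1]; exact Submodule.mem_span_singleton_self _) (0, 1)
        (by rw [h2]; exact Submodule.mem_span_singleton_self _) (by simp [Prod.norm_def])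
        (by simp [Prod.norm_def])
      rw [D_fixed triple_qhat, diag_apply, diag_apply] at h3
      simp only [mul_zero, mul_one] at h3
      rw [norm_zero_mk, norm_mk_zero, abs_of_pos (pow_pos (ca_pos _) n),
        abs_of_pos (by positivity)] at h3
      exact h3
    · exact h.1
  -- invariance along the solenoid
  have hinv : ∀ x : Sol, ∀ u : ℝ × ℝ, u ∈ E (emb x) →
      (3 * u.1, ca (x.1 0) * u.2) ∈ E (emb (triple x)) := by
    intro x u hu
    have h1 := hE.invariant_fst (emb x) (emb_mem_support x)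
    rw [shift_emb, D_one] at h1
    rw [← h1]
    have h2 := Submodule.mem_map_of_mem (f := (diag 3 (ca (x.1 0))).toLinearMap) hu
    simpa using h2
  -- `E` is vertical at the heteroclinic point
  have hvert : ∀ u ∈ E (emb (flow (1 / 2))), u.1 = 0 := by
    intro u hu
    by_contra hu1
    set σ := u.2 / u.1 with hσ
    have hu' : ((1 : ℝ), σ) ∈ E (emb (flow (1 / 2))) := by
      have := Submodule.smul_mem (E (emb (flow (1 / 2)))) (u.1)⁻¹ hu
      have e : (u.1)⁻¹ • u = (1, σ) := by
        ext
        · simp [hu1]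
        · simp [hσ, div_eq_inv_mul]
      rwa [e] at this
    set r := ca ((1 / 2 : ℝ) : UnitAddCircle) / 3 with hr
    have hr0 : 0 < r := div_pos (ca_pos _) (by norm_num)
    have hr1 : r < 1 := by
      rw [hr, div_lt_one (by norm_num)]
      exact ca_half_lt
    have hm : ∀ m : ℕ, ((1 : ℝ), r ^ m * σ) ∈ E (emb (flow (3 ^ m / 2))) := by
      intro m
      induction m with
      | zero => simpa using hu'
      | succ m ih =>
        have h1 := hinv _ _ ih
        rw [triple_flow] at h1
        have hc : (flow (3 ^ m / 2)).1 0 = ((1 / 2 : ℝ) : UnitAddCircle) := by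
          rw [flow_apply, QuotientAddGroup.eq_iff_sub_mem, AddSubgroup.mem_zmultiples_iff]
          have hodd : Odd (3 ^ m) := Odd.pow (by decide)
          obtain ⟨j, hj⟩ := hodd
          refine ⟨j, ?_⟩
          have hj' : (3 : ℝ) ^ m = 2 * j + 1 := by exact_mod_cast hj
          rw [hj']
          simp only [zsmul_eq_mul, Int.cast_natCast, mul_one, pow_zero, div_one]
          ring
        rw [hc] at h1
        have h2 := Submodule.smul_mem _ (1 / 3 : ℝ) h1
        have e1 : (3 : ℝ) * (3 ^ m / 2) = 3 ^ (m + 1) / 2 := by ring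
        have e2 : (1 / 3 : ℝ) • ((3 : ℝ) * 1, ca ((1 / 2 : ℝ) : UnitAddCircle) * (r ^ m * σ)) =
            (1, r ^ (m + 1) * σ) := by
          ext
          · simp
          · simp only [Prod.smul_mk, smul_eq_mul]
            rw [hr, pow_succ]
            ring
        simp only at h2
        rw [e1, e2] at h2
        exact h2
    obtain ⟨U, hU, s, hscont, hs⟩ := hE.continuous_fst (emb qhat) (emb_mem_support _)
    have hqU : emb qhat ∈ mu'.support ∩ U := ⟨emb_mem_support _, mem_of_mem_nhds hU⟩
    have hlim : Tendsto (fun m : ℕ => s (emb (flow (3 ^ m / 2)))) atTop (𝓝 (s (emb qhat))) := by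
      have h1 : Tendsto s (𝓝[mu'.support ∩ U] (emb qhat)) (𝓝 (s (emb qhat))) := hscont _ hqU
      apply h1.comp
      rw [tendsto_nhdsWithin_iff]
      refine ⟨tendsto_forward, ?_⟩
      filter_upwards [tendsto_forward.eventually hU] with m hm'
      exact ⟨emb_mem_support _, hm'⟩
    have hsq := hs _ hqU
    have hsq1 : (s (emb qhat)).1 = 0 := by
      have : s (emb qhat) ∈ E (emb qhat) := by
        rw [hsq.2]; exact Submodule.mem_span_singleton_self _
      rw [hq, Submodule.mem_span_singleton] at this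
      obtain ⟨c, hc⟩ := this
      rw [← hc]
      simp
    have hsq2 : (s (emb qhat)).2 ≠ 0 := fun h => hsq.1 (Prod.ext hsq1 h)
    have hslope : ∀ᶠ m : ℕ in atTop, (s (emb (flow (3 ^ m / 2)))).2 =
        (s (emb (flow (3 ^ m / 2)))).1 * (r ^ m * σ) := by
      filter_upwards [tendsto_forward.eventually hU] with m hm'
      have h1 := hs _ ⟨emb_mem_support (flow (3 ^ m / 2)), hm'⟩
      have h2 := hm m
      rw [h1.2, Submodule.mem_span_singleton] at h2
      obtain ⟨c, hc⟩ := h2
      rw [Prod.ext_iff] at hc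
      simp only [Prod.smul_fst, Prod.smul_snd, smul_eq_mul] at hc
      have hc0 : c ≠ 0 := by
        intro h
        rw [h] at hc
        simp at hc
      have e1 : c * (s (emb (flow (3 ^ m / 2)))).2 =
          c * ((s (emb (flow (3 ^ m / 2)))).1 * (r ^ m * σ)) := by
        rw [hc.2, ← mul_assoc, hc.1, one_mul]
      exact mul_left_cancel₀ hc0 e1
    have hlim1 : Tendsto (fun m : ℕ => (s (emb (flow (3 ^ m / 2)))).1 * (r ^ m * σ)) atTop
        (𝓝 ((s (emb qhat)).1 * (0 * σ))) :=
      ((continuous_fst.tendsto _).comp hlim).mul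
        ((tendsto_pow_atTop_nhds_zero_of_lt_one hr0.le hr1).mul_const σ)
    have hlim2 : Tendsto (fun m : ℕ => (s (emb (flow (3 ^ m / 2)))).2) atTop
        (𝓝 ((s (emb qhat)).2)) := (continuous_snd.tendsto _).comp hlim
    have := tendsto_nhds_unique (hlim2.congr' hslope) hlim1
    rw [this] at hsq2
    simp at hsq2
  -- hence vertical at all backward iterates
  have hback : ∀ m : ℕ, ∀ u ∈ E (emb (flow (1 / (2 * 3 ^ m)))), u.1 = 0 := by
    intro m
    induction m with
    | zero => simpa using hvert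
    | succ m ih =>
      intro u hu
      have h1 := hinv _ _ hu
      rw [triple_flow] at h1
      have e : (3 : ℝ) * (1 / (2 * 3 ^ (m + 1))) = 1 / (2 * 3 ^ m) := by
        rw [pow_succ]
        field_simp
      rw [e] at h1
      have h2 := ih _ h1
      simp only at h2
      linarith
  obtain ⟨U, hU, s, hscont, hs⟩ := hE.continuous_fst (emb 0) (emb_mem_support _)
  have hpU : emb 0 ∈ mu'.support ∩ U := ⟨emb_mem_support _, mem_of_mem_nhds hU⟩
  have hlim : Tendsto (fun m : ℕ => s (emb (flow (1 / (2 * 3 ^ m))))) atTop (𝓝 (s (emb 0))) := by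
    have h1 : Tendsto s (𝓝[mu'.support ∩ U] (emb 0)) (𝓝 (s (emb 0))) := hscont _ hpU
    apply h1.comp
    rw [tendsto_nhdsWithin_iff]
    refine ⟨tendsto_backward, ?_⟩
    filter_upwards [tendsto_backward.eventually hU] with m hm'
    exact ⟨emb_mem_support _, hm'⟩
  have hsp := hs _ hpU
  have hsp2 : (s (emb 0)).2 = 0 := by
    have : s (emb 0) ∈ E (emb 0) := by
      rw [hsp.2]; exact Submodule.mem_span_singleton_self _
    rw [hp, Submodule.mem_span_singleton] at this
    obtain ⟨c, hc⟩ := this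
    rw [← hc]
    simp
  have hsp1 : (s (emb 0)).1 ≠ 0 := fun h => hsp.1 (Prod.ext h hsp2)
  have hz : ∀ᶠ m : ℕ in atTop, (s (emb (flow (1 / (2 * 3 ^ m))))).1 = 0 := by
    filter_upwards [tendsto_backward.eventually hU] with m hm'
    have h1 := hs _ ⟨emb_mem_support (flow (1 / (2 * 3 ^ m))), hm'⟩
    apply hback m
    rw [h1.2]
    exact Submodule.mem_span_singleton_self _
  have hlim1 : Tendsto (fun m : ℕ => (s (emb (flow (1 / (2 * 3 ^ m))))).1) atTop
      (𝓝 (s (emb 0)).1) := (continuous_fst.tendsto _).comp hlim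
  have := tendsto_nhds_unique (hlim1.congr' hz) tendsto_const_nhds
  exact hsp1 this

end Pool.Agent.Results.MP_a891d2_an.TorusExample
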