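import Mathlib
import Pool.Agent.Lib_MP_a891d2_an.Dominated

/-!
# Unstable sets of typical points are the flow lines of the solenoid
-/

namespace Pool.Agent.Results.MP_a891d2_an.TorusExample

open MeasureTheory Filter Topology Finset

lemma norm_coe_le_abs (s : ℝ) : ‖(s : UnitAddCircle)‖ ≤ |s| := by
  rw [UnitAddCircle.norm_eq]
  simpa using round_le s 0

lemma norm_flow_le (s : ℝ) (n : ℕ) : ‖(flow s).1 n‖ ≤ |s| * (1 / 3) ^ n := by
  rw [flow_apply]
  refine (norm_coe_le_abs _).trans ?_
  rw [abs_div, abs_of_pos (by positivity : (0 : ℝ) < 3 ^ n), one_div_pow]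
  rw [div_eq_mul_one_div]

lemma coe_flow_mem (x : Sol) (s : ℝ) : emb (x + flow s) ∈ unstableSet map (emb x) := by
  refine ⟨emb_mem _, |s|, 1 / 3, by norm_num, by norm_num, fun n => ?_⟩
  show dist ((x.1 n, 0) : Torus) (x.1 n + (flow s).1 n, 0) ≤ _
  rw [Prod.dist_eq]
  simp only [dist_self_add_right]
  rw [dist_self, max_eq_left (norm_nonneg _)]
  exact norm_flow_le s n

/-- the flow is additive. -/
lemma flow_add (s t : ℝ) : flow (s + t) = flow s + flow t := by
  apply Subtype.ext
  funext n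
  show (((s + t) / 3 ^ n : ℝ) : UnitAddCircle) = ((s / 3 ^ n : ℝ) : UnitAddCircle) +
    ((t / 3 ^ n : ℝ) : UnitAddCircle)
  rw [← AddCircle.coe_add, add_div]

/-- An element of the solenoid whose coordinates tend to zero lies on the one-parameter
subgroup. -/
lemma exists_flow_of_tendsto (z : Sol) (hz : Tendsto (fun n => ‖z.1 n‖) atTop (𝓝 0)) :
    ∃ s : ℝ, z = flow s := by
  -- small representatives
  have hrep : ∀ n, ∃ r : ℝ, (r : UnitAddCircle) = z.1 n ∧ |r| = ‖z.1 n‖ := by
    intro n
    set t : ℝ := (AddCircle.equivIco 1 0 (z.1 n) : ℝ) with ht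
    refine ⟨t - round t, ?_, ?_⟩
    · have h : (((round t : ℤ) : ℝ) : UnitAddCircle) = 0 := by
        rw [AddCircle.coe_eq_zero_iff]
        exact ⟨round t, by simp⟩
      rw [AddCircle.coe_sub, h, sub_zero, ht, coe_equivIco]
    · rw [← UnitAddCircle.norm_eq, ht, coe_equivIco]
  choose r hr1 hr2 using hrep
  obtain ⟨N, hN⟩ : ∃ N, ∀ n ≥ N, ‖z.1 n‖ < 1 / 8 := by
    have := (tendsto_order.1 hz).2 (1 / 8) (by norm_num)
    exact eventually_atTop.1 this
  have hstep : ∀ n ≥ N, 3 * r (n + 1) = r n := by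
    intro n hn
    have h1 : ((3 * r (n + 1) - r n : ℝ) : UnitAddCircle) = 0 := by
      rw [AddCircle.coe_sub, hr1]
      have : ((3 * r (n + 1) : ℝ) : UnitAddCircle) = (3 : ℕ) • z.1 (n + 1) := by
        rw [← hr1 (n + 1), ← AddCircle.coe_nsmul]
        simp
      rw [this, z.2 n, sub_self]
    rw [AddCircle.coe_eq_zero_iff] at h1
    obtain ⟨k, hk⟩ := h1
    simp only [zsmul_eq_mul, mul_one] at hk
    have h2 : |3 * r (n + 1) - r n| < 1 := by
      have e1 : |r (n + 1)| < 1 / 8 := by rw [hr2]; exact hN _ (by omega)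
      have e2 : |r n| < 1 / 8 := by rw [hr2]; exact hN _ hn
      rw [abs_lt] at e1 e2 ⊢
      constructor <;> linarith
    rw [← hk] at h2
    have h3 : |k| < 1 := by exact_mod_cast h2
    have h4 : k = 0 := Int.abs_lt_one_iff.1 h3
    rw [h4] at hk
    simp only [Int.cast_zero] at hk
    linarith
  have hr : ∀ k, r (N + k) = r N / 3 ^ k := by
    intro k
    induction k with
    | zero => simp
    | succ k ih =>
      have := hstep (N + k) (by omega)
      rw [ih] at this
      rw [← add_assoc]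
      field_simp
      field_simp at this
      rw [pow_succ]
      linarith
  refine ⟨3 ^ N * r N, ?_⟩
  have hbig : ∀ k, z.1 (N + k) = (flow (3 ^ N * r N)).1 (N + k) := by
    intro k
    rw [← hr1, hr, flow_apply]
    congr 1
    rw [pow_add]
    field_simp
  apply Subtype.ext
  funext n
  rcases le_total N n with h | h
  · obtain ⟨k, rfl⟩ := Nat.exists_eq_add_of_le h
    exact hbig k
  · obtain ⟨k, rfl⟩ := Nat.exists_eq_add_of_le h
    have h1 := Sol.pow z n k
    have h2 := Sol.pow (flow (3 ^ (n + k) * r (n + k))) n k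
    have h3 := hbig 0
    simp only [add_zero] at h3
    rw [← h1, h3, h2]

lemma ct_eq_zero {η : UnitAddCircle} (h : ct η = 0) :
    η = 0 ∨ η = ((1 / 2 : ℝ) : UnitAddCircle) := by
  unfold ct at h
  rw [Real.tan_eq_sin_div_cos, div_eq_zero_iff] at h
  rcases h with h | h
  · left
    rw [Real.sin_eq_zero_iff] at h
    obtain ⟨n, hn⟩ := h
    have hpi := Real.pi_pos.ne'
    have h1 : (AddCircle.equivIco 1 0 η : ℝ) = n := by
      have : Real.pi * ((AddCircle.equivIco 1 0 η : ℝ) - n) = 0 := by linarith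
      rcases mul_eq_zero.1 this with h | h
      · exact absurd h hpi
      · linarith
    rw [← coe_equivIco η, h1, AddCircle.coe_eq_zero_iff]
    exact ⟨n, by simp⟩
  · right
    rw [← coe_equivIco η]
    exact (coe_eq_half_iff _).2 h

lemma norm_half : ‖((1 / 2 : ℝ) : UnitAddCircle)‖ = 1 / 2 := by
  rw [UnitAddCircle.norm_eq]
  have : round (1 / 2 : ℝ) = 1 := by
    rw [round_eq]
    norm_num
  rw [this]
  norm_num

/-- near `0`, the function `ct` is bounded by `1`. -/
lemma abs_ct_le_one {η : UnitAddCircle} (h : ‖η‖ ≤ 1 / 4) : |ct η| ≤ 1 := by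
  set t : ℝ := (AddCircle.equivIco 1 0 η : ℝ) with ht
  have h1 : ‖(t : UnitAddCircle)‖ = |t - round t| := UnitAddCircle.norm_eq
  have h2 : ct η = Real.tan (Real.pi * (t - round t)) := by
    unfold ct
    rw [← ht]
    have : Real.pi * t = Real.pi * (t - round t) + (round t : ℤ) * Real.pi := by ring
    rw [this, Real.tan_periodic.int_mul (round t)]
  rw [ht, coe_equivIco, ← ht] at h1
  rw [h1] at h
  rw [h2]
  set u := t - round t with hu
  have hpi := Real.pi_pos
  rw [abs_le] at h ⊢
  constructor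
  · have h3 : Real.tan (Real.pi / 4) ≥ Real.tan (-(Real.pi * u)) := by
      rcases eq_or_lt_of_le (show -(Real.pi * u) ≤ Real.pi / 4 by nlinarith) with h4 | h4
      · rw [h4]
      · exact (Real.tan_lt_tan_of_lt_of_lt_pi_div_two (by nlinarith) (by linarith) h4).le
    rw [Real.tan_pi_div_four, Real.tan_neg] at h3
    linarith
  · have h3 : Real.tan (Real.pi * u) ≤ Real.tan (Real.pi / 4) := by
      rcases eq_or_lt_of_le (show Real.pi * u ≤ Real.pi / 4 by nlinarith) with h4 | h4
      · rw [h4]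
      · exact (Real.tan_lt_tan_of_lt_of_lt_pi_div_two (by nlinarith) (by linarith) h4).le
    rwa [Real.tan_pi_div_four] at h3

lemma tendsto_of_bound {u : ℕ → ℝ} {C θ : ℝ} (hθ0 : 0 < θ) (hθ1 : θ < 1) (hu : ∀ n, 0 ≤ u n)
    (h : ∀ n, u n ≤ C * θ ^ n) : Tendsto u atTop (𝓝 0) := by
  have h2 : Tendsto (fun n : ℕ => C * θ ^ n) atTop (𝓝 (C * 0)) :=
    (tendsto_pow_atTop_nhds_zero_of_lt_one hθ0.le hθ1).const_mul _
  rw [mul_zero] at h2
  exact squeeze_zero hu h h2

/-- The unstable set of a typical point is its flow line. -/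
theorem unstable_eq_flow (x : Sol)
    (hx : Tendsto (fun n : ℕ => (∑ k ∈ range n, cc (x.1 (k + 1))) / n) atTop (𝓝 0))
    {y : ℕ → Torus} (hy : y ∈ unstableSet map (emb x)) : ∃ s : ℝ, y = emb (x + flow s) := by
  obtain ⟨hyn, C, θ, hθ0, hθ1, hdist⟩ := hy
  -- first coordinates
  let ξ : Sol := ⟨fun n => (y n).1, by
    intro n
    have := congrArg Prod.fst (hyn n)
    rw [map_fst] at this
    exact this⟩
  have hξ : ∀ n, ξ.1 n = (y n).1 := fun n => rfl
  have hd1 : Tendsto (fun n => ‖(ξ - x).1 n‖) atTop (𝓝 0) := by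
    apply tendsto_of_bound hθ0 hθ1 (fun n => norm_nonneg _) (C := C)
    intro n
    refine le_trans ?_ (hdist n)
    show ‖(y n).1 - x.1 n‖ ≤ dist ((x.1 n, 0) : Torus) (y n)
    rw [Prod.dist_eq, ← dist_eq_norm, dist_comm]
    exact le_max_left _ _
  have hd2 : Tendsto (fun n => ‖(y n).2‖) atTop (𝓝 0) := by
    apply tendsto_of_bound hθ0 hθ1 (fun n => norm_nonneg _) (C := C)
    intro n
    refine le_trans ?_ (hdist n)
    show ‖(y n).2‖ ≤ dist ((x.1 n, 0) : Torus) (y n)
    rw [Prod.dist_eq]
    refine le_trans ?_ (le_max_right _ _)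
    rw [dist_comm, dist_zero_right]
  obtain ⟨s, hs⟩ := exists_flow_of_tendsto (ξ - x) hd1
  -- backward averages along `ξ`
  have hcc : Tendsto (fun n : ℕ => cc (ξ.1 (n + 1)) - cc (x.1 (n + 1))) atTop (𝓝 0) := by
    have huc : UniformContinuous cc := CompactSpace.uniformContinuous_of_continuous continuous_cc
    rw [Metric.tendsto_atTop]
    intro ε hε
    obtain ⟨δ, hδ, hδ'⟩ := Metric.uniformContinuous_iff.1 huc ε hε
    obtain ⟨N, hN⟩ := eventually_atTop.1 ((tendsto_order.1 hd1).2 δ hδ)
    refine ⟨N, fun n hn => ?_⟩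
    rw [dist_zero_right, ← dist_eq_norm]
    apply hδ'
    have := hN (n + 1) (by omega)
    rw [dist_eq_norm]
    exact this
  have hces : Tendsto (fun n : ℕ => (∑ k ∈ range n, cc (ξ.1 (k + 1))) / n) atTop (𝓝 0) := by
    have h1 := hcc.cesaro
    have h2 := h1.add hx
    simp only [add_zero] at h2
    refine h2.congr fun n => ?_
    rw [Finset.sum_sub_distrib]
    ring
  -- the second coordinates vanish
  have hstep : ∀ n, ct (y n).2 = ca (ξ.1 (n + 1)) * ct (y (n + 1)).2 := by
    intro n
    conv_lhs => rw [← hyn n]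
    rw [ct_map_snd]
  have hprod : ∀ m k, ct (y m).2 =
      (∏ j ∈ range k, ca (ξ.1 (m + j + 1))) * ct (y (m + k)).2 := by
    intro m k
    induction k with
    | zero => simp
    | succ k ih =>
      rw [ih, hstep (m + k), Finset.prod_range_succ, ← add_assoc]
      ring
  obtain ⟨N, hN⟩ : ∃ N, ∀ n ≥ N, ‖(y n).2‖ < 1 / 4 :=
    eventually_atTop.1 ((tendsto_order.1 hd2).2 (1 / 4) (by norm_num))
  have hct : ∀ m, ct (y m).2 = 0 := by
    intro m
    -- the exponent tends to `-∞`
    set S : ℕ → ℝ := fun n => ∑ k ∈ range n, cc (ξ.1 (k + 1)) with hS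
    have hexp : Tendsto (fun n : ℕ => -(n : ℝ) + 3 * S n) atTop atBot := by
      have h1 : ∀ᶠ n : ℕ in atTop, -(n : ℝ) + 3 * S n ≤ -((1 / 2) * (n : ℝ)) := by
        have h2 := (tendsto_order.1 hces).2 (1 / 6) (by norm_num)
        filter_upwards [h2, eventually_gt_atTop 0] with n h2 hn
        have hn' : (0 : ℝ) < n := by exact_mod_cast hn
        rw [div_lt_iff₀ hn'] at h2
        simp only [hS]
        linarith
      refine tendsto_atBot_mono' _ h1 ?_
      apply tendsto_neg_atTop_atBot.comp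
      exact tendsto_natCast_atTop_atTop.const_mul_atTop (by norm_num)
    have hbound : ∀ᶠ k : ℕ in atTop, |ct (y m).2| ≤
        Real.exp ((m : ℝ) - 3 * S m) * Real.exp (-((m + k : ℕ) : ℝ) + 3 * S (m + k)) := by
      filter_upwards [eventually_ge_atTop N] with k hk
      rw [hprod m k, abs_mul]
      have h1 : |ct (y (m + k)).2| ≤ 1 := abs_ct_le_one (hN (m + k) (by omega)).le
      have h2 : ∏ j ∈ range k, ca (ξ.1 (m + j + 1)) =
          Real.exp ((m : ℝ) - 3 * S m) * Real.exp (-((m + k : ℕ) : ℝ) + 3 * S (m + k)) := by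
        rw [prod_ca (range k) (fun j => ξ.1 (m + j + 1)), ← Real.exp_add]
        congr 1
        have h3 : S (m + k) = S m + ∑ j ∈ range k, cc (ξ.1 (m + j + 1)) := by
          simp only [hS]
          rw [Finset.sum_range_add]
        rw [h3]
        simp only [card_range]
        push_cast
        ring
      rw [h2, abs_of_pos (by positivity)]
      exact mul_le_of_le_one_right (by positivity) h1
    have hlim : Tendsto (fun k : ℕ => Real.exp ((m : ℝ) - 3 * S m) *
        Real.exp (-((m + k : ℕ) : ℝ) + 3 * S (m + k))) atTop (𝓝 (Real.exp ((m : ℝ) - 3 * S m) * 0)) := by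
      apply Tendsto.const_mul
      apply Real.tendsto_exp_atBot.comp
      have h1 : Tendsto (fun k : ℕ => m + k) atTop atTop := tendsto_add_atTop_nat m |>.congr
        (fun k => by rw [add_comm])
      exact hexp.comp h1
    rw [mul_zero] at hlim
    have := ge_of_tendsto hlim hbound
    exact abs_eq_zero.1 (le_antisymm this (abs_nonneg _))
  have hzero_large : ∀ n ≥ N, (y n).2 = 0 := by
    intro n hn
    rcases ct_eq_zero (hct n) with h | h
    · exact h
    · exfalso
      have := hN n hn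
      rw [h, norm_half] at this
      norm_num at this
  have hzero : ∀ n, (y n).2 = 0 := by
    have hdown : ∀ n, (y (n + 1)).2 = 0 → (y n).2 = 0 := by
      intro n h
      rw [← hyn n]
      have : y (n + 1) = ((y (n + 1)).1, 0) := Prod.ext rfl h
      rw [this, map_zero]
    intro n
    have : ∀ k, (y (n + k)).2 = 0 → (y n).2 = 0 := by
      intro k
      induction k with
      | zero => exact fun h => h
      | succ k ih =>
        intro h
        exact ih (hdown _ (by rw [add_assoc]; exact h))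
    exact this N (hzero_large _ (by omega))
  refine ⟨s, ?_⟩
  have h1 : x + flow s = ξ := by rw [← hs]; abel
  rw [h1]
  funext n
  exact Prod.ext rfl (hzero n)

end Pool.Agent.Results.MP_a891d2_an.TorusExample
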