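import Mathlib
import Pool.Agent.Lib_MP_a891d2_an.Unstable

/-!
# The basin of the measure has full area, and dissipativity
-/

namespace Pool.Agent.Results.MP_a891d2_an.TorusExample

open MeasureTheory Filter Topology Finset

lemma norm_le_abs_ct {η : UnitAddCircle} (h : η ≠ ((1 / 2 : ℝ) : UnitAddCircle)) :
    ‖η‖ ≤ |ct η| := by
  set t : ℝ := (AddCircle.equivIco 1 0 η : ℝ) with ht
  have h1 : ‖(t : UnitAddCircle)‖ = |t - round t| := UnitAddCircle.norm_eq
  have h2 : ct η = Real.tan (Real.pi * (t - round t)) := by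
    unfold ct
    rw [← ht]
    have : Real.pi * t = Real.pi * (t - round t) + (round t : ℤ) * Real.pi := by ring
    rw [this, Real.tan_periodic.int_mul (round t)]
  rw [ht, coe_equivIco, ← ht] at h1
  rw [h1, h2]
  set u := t - round t with hu
  have hpi := Real.pi_pos
  have hpi3 := Real.pi_gt_three
  have hle : |u| ≤ 1 / 2 := abs_sub_round t
  have hcoe : (u : UnitAddCircle) = η := by
    have h0 : (((round t : ℤ) : ℝ) : UnitAddCircle) = 0 := by
      rw [AddCircle.coe_eq_zero_iff]
      exact ⟨round t, by simp⟩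
    rw [hu, AddCircle.coe_sub, h0, sub_zero, ht, coe_equivIco]
  have hlt : |u| < 1 / 2 := by
    rcases lt_or_eq_of_le hle with h3 | h3
    · exact h3
    · exfalso
      apply h
      rw [← hcoe, coe_eq_half_iff]
      have : Real.cos (Real.pi * |u|) = 0 := by
        rw [h3, show Real.pi * (1 / 2) = Real.pi / 2 by ring, Real.cos_pi_div_two]
      rcases abs_choice u with h4 | h4
      · rwa [h4] at this
      · rw [h4] at this
        rw [← Real.cos_neg]
        rw [← this]
        congr 1
        ring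
  have hpos : ∀ v : ℝ, 0 ≤ v → v < 1 / 2 → v ≤ Real.tan (Real.pi * v) := by
    intro v hv0 hv1
    have h3 := Real.le_tan (x := Real.pi * v) (by positivity) (by nlinarith)
    nlinarith
  rcases le_total 0 u with h3 | h3
  · rw [abs_of_nonneg h3] at hlt ⊢
    exact (hpos u h3 hlt).trans (le_abs_self _)
  · rw [abs_of_nonpos h3] at hlt ⊢
    have h4 := hpos (-u) (by linarith) hlt
    rw [mul_neg, Real.tan_neg] at h4
    exact h4.trans (neg_le_abs _)

lemma iterate_fst (p : Torus) (n : ℕ) : (map^[n] p).1 = (3 ^ n : ℕ) • p.1 := by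
  induction n with
  | zero => simp
  | succ n ih => rw [Function.iterate_succ_apply', map_fst, ih, smul_smul, pow_succ, mul_comm]

lemma ct_iterate (p : Torus) (n : ℕ) :
    ct (map^[n] p).2 = (∏ k ∈ range n, ca ((3 ^ k : ℕ) • p.1)) * ct p.2 := by
  induction n with
  | zero => simp
  | succ n ih =>
    rw [Function.iterate_succ_apply', ct_map_snd, ih, iterate_fst, Finset.prod_range_succ]
    ring

lemma iterate_ne_half {p : Torus} (h : p.2 ≠ ((1 / 2 : ℝ) : UnitAddCircle)) (n : ℕ) :
    (map^[n] p).2 ≠ ((1 / 2 : ℝ) : UnitAddCircle) := by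
  induction n with
  | zero => simpa using h
  | succ n ih =>
    rw [Function.iterate_succ_apply']
    intro h2
    exact ih ((map_snd_eq_half_iff _).1 h2)

lemma tendsto_snd {p : Torus} (h : p.2 ≠ ((1 / 2 : ℝ) : UnitAddCircle))
    (hf : Tendsto (fun n : ℕ => (∑ k ∈ range n, cc ((3 ^ k : ℕ) • p.1)) / n) atTop (𝓝 0)) :
    Tendsto (fun n : ℕ => ‖(map^[n] p).2‖) atTop (𝓝 0) := by
  have hexp : Tendsto (fun n : ℕ => -(n : ℝ) + 3 * ∑ k ∈ range n, cc ((3 ^ k : ℕ) • p.1))
      atTop atBot := by
    have h1 : ∀ᶠ n : ℕ in atTop, -(n : ℝ) + 3 * ∑ k ∈ range n, cc ((3 ^ k : ℕ) • p.1) ≤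
        -((1 / 2) * (n : ℝ)) := by
      have h2 := (tendsto_order.1 hf).2 (1 / 6) (by norm_num)
      filter_upwards [h2, eventually_gt_atTop 0] with n h2 hn
      have hn' : (0 : ℝ) < n := by exact_mod_cast hn
      rw [div_lt_iff₀ hn'] at h2
      linarith
    refine tendsto_atBot_mono' _ h1 ?_
    apply tendsto_neg_atTop_atBot.comp
    exact tendsto_natCast_atTop_atTop.const_mul_atTop (by norm_num)
  have hlim : Tendsto (fun n : ℕ => Real.exp (-(n : ℝ) +
      3 * ∑ k ∈ range n, cc ((3 ^ k : ℕ) • p.1)) * |ct p.2|) atTop (𝓝 (0 * |ct p.2|)) :=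
    (Real.tendsto_exp_atBot.comp hexp).mul_const _
  rw [zero_mul] at hlim
  refine squeeze_zero (fun n => norm_nonneg _) (fun n => ?_) hlim
  refine (norm_le_abs_ct (iterate_ne_half h n)).trans ?_
  rw [ct_iterate, abs_mul, prod_ca, abs_of_pos (Real.exp_pos _)]
  simp

/-- The integral with respect to `mu`. -/
lemma integral_mu (φ : C(Torus, ℝ)) : ∫ p, φ p ∂mu = ∫ t : UnitAddCircle, φ (t, 0) := by
  unfold mu
  rw [integral_map measurable_circle.aemeasurable φ.continuous.aestronglyMeasurable]

theorem basin : ∀ᵐ p : Torus, ∀ φ : C(Torus, ℝ),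
    Tendsto (fun n : ℕ => (∑ k ∈ range n, φ (map^[k] p)) / n) atTop (𝓝 (∫ p, φ p ∂mu)) := by
  have h1 : ∀ᵐ p : Torus, ∀ φ : C(UnitAddCircle, ℂ), Tendsto (fun n : ℕ =>
      (∑ k ∈ range n, φ ((3 ^ k : ℕ) • p.1)) / n) atTop (𝓝 (∫ t : UnitAddCircle, φ t)) :=
    Measure.quasiMeasurePreserving_fst.ae ae_tendsto_average
  have h2 : ∀ᵐ p : Torus, Tendsto (fun n : ℕ =>
      (∑ k ∈ range n, cc ((3 ^ k : ℕ) • p.1)) / n) atTop (𝓝 0) :=
    Measure.quasiMeasurePreserving_fst.ae ae_forward
  have h3 : ∀ᵐ p : Torus, p.2 ≠ ((1 / 2 : ℝ) : UnitAddCircle) := by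
    have h4 : ∀ᵐ η : UnitAddCircle, η ≠ ((1 / 2 : ℝ) : UnitAddCircle) := by
      rw [ae_iff]
      simp only [ne_eq, not_not, Set.ofPred_eq_eq_singleton]
      have h := AddCircle.volume_closedBall (T := 1) (x := ((1 / 2 : ℝ) : UnitAddCircle)) 0
      rw [Metric.closedBall_zero] at h
      rw [h]
      simp
    exact Measure.quasiMeasurePreserving_snd.ae h4
  filter_upwards [h1, h2, h3] with p h1 h2 h3 φ
  have hsnd := tendsto_snd h3 h2
  -- comparison with the circle `y = 0`
  have hdiff : Tendsto (fun n : ℕ => φ (map^[n] p) - φ ((map^[n] p).1, 0)) atTop (𝓝 0) := by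
    have huc : UniformContinuous φ := CompactSpace.uniformContinuous_of_continuous φ.continuous
    rw [Metric.tendsto_atTop]
    intro ε hε
    obtain ⟨δ, hδ, hδ'⟩ := Metric.uniformContinuous_iff.1 huc ε hε
    obtain ⟨N, hN⟩ := eventually_atTop.1 ((tendsto_order.1 hsnd).2 δ hδ)
    refine ⟨N, fun n hn => ?_⟩
    rw [dist_zero_right, ← dist_eq_norm]
    apply hδ'
    rw [Prod.dist_eq]
    simp only [dist_self]
    rw [dist_zero_right, max_eq_right (norm_nonneg _)]
    exact hN n hn
  let ψ : C(UnitAddCircle, ℂ) := ⟨fun t => ((φ (t, 0) : ℝ) : ℂ), by fun_prop⟩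
  have h4 := (Complex.continuous_re.tendsto _).comp (h1 ψ)
  have h5 : (∫ t : UnitAddCircle, ψ t).re = ∫ p, φ p ∂mu := by
    rw [integral_mu]
    have : (∫ t : UnitAddCircle, ψ t) = ((∫ t : UnitAddCircle, φ (t, 0) : ℝ) : ℂ) :=
      integral_ofReal
    rw [this, Complex.ofReal_re]
  rw [h5] at h4
  have h6 := hdiff.cesaro.add h4
  rw [zero_add] at h6
  refine h6.congr fun n => ?_
  simp only [Function.comp]
  have h7 : (∑ k ∈ range n, ψ ((3 ^ k : ℕ) • p.1)) / (n : ℂ) =
      ((((∑ k ∈ range n, φ ((map^[k] p).1, 0)) / n : ℝ)) : ℂ) := by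
    rw [Complex.ofReal_div, Complex.ofReal_sum, Complex.ofReal_natCast]
    congr 1
    apply Finset.sum_congr rfl
    intro k _
    rw [iterate_fst]
    rfl
  rw [h7, Complex.ofReal_re, Finset.sum_sub_distrib]
  ring

lemma mu_circle : mu {p : Torus | p.2 = 0} = 1 := by
  unfold mu
  have hm : MeasurableSet {p : Torus | p.2 = 0} := (isClosed_singleton.preimage
    continuous_snd).measurableSet
  rw [Measure.map_apply measurable_circle hm]
  have : (fun ξ : UnitAddCircle => ((ξ, 0) : Torus)) ⁻¹' {p : Torus | p.2 = 0} = Set.univ := by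
    ext; simp
  rw [this, UnitAddCircle.measure_univ]

lemma volume_circle : (volume : Measure Torus) {p : Torus | p.2 = 0} = 0 := by
  have h4 : ∀ᵐ η : UnitAddCircle, η ≠ 0 := by
    rw [ae_iff]
    simp only [ne_eq, not_not, Set.ofPred_eq_eq_singleton]
    have h := AddCircle.volume_closedBall (T := 1) (x := (0 : UnitAddCircle)) 0
    rw [Metric.closedBall_zero] at h
    rw [h]
    simp
  have h3 : ∀ᵐ p : Torus, p.2 ≠ 0 := Measure.quasiMeasurePreserving_snd.ae h4
  rw [ae_iff] at h3
  simpa using h3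

theorem isDissipative : IsDissipative map := by
  intro ν hν hac hinv
  have hiter : ∀ n : ℕ, ν.map (map^[n]) = ν := by
    intro n
    induction n with
    | zero => simp
    | succ n ih =>
      rw [Function.iterate_succ, ← Measure.map_map (continuous_map.iterate n).measurable
        continuous_map.measurable, hinv, ih]
  have hkey : ∀ φ : C(Torus, ℝ), ∫ p, φ p ∂ν = ∫ p, φ p ∂mu := by
    intro φ
    have hb := hac.ae_le basin
    have h1 : Tendsto (fun n : ℕ => ∫ p, (∑ k ∈ range n, φ (map^[k] p)) / n ∂ν) atTop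
        (𝓝 (∫ _p, (∫ p, φ p ∂mu) ∂ν)) := by
      apply tendsto_integral_of_dominated_convergence (fun _ => ‖φ‖)
      · intro n
        apply Continuous.aestronglyMeasurable
        apply Continuous.div_const
        exact continuous_finsetSum _ fun k _ => φ.continuous.comp (continuous_map.iterate k)
      · exact integrable_const _
      · intro n
        refine Eventually.of_forall fun p => ?_
        rcases Nat.eq_zero_or_pos n with hn | hn
        · subst hn
          simp
        · have hn' : (0 : ℝ) < n := by exact_mod_cast hn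
          rw [norm_div, Real.norm_natCast, div_le_iff₀ hn']
          calc ‖∑ k ∈ range n, φ (map^[k] p)‖ ≤ ∑ k ∈ range n, ‖φ (map^[k] p)‖ := norm_sum_le _ _
            _ ≤ ∑ _k ∈ range n, ‖φ‖ := Finset.sum_le_sum fun k _ => φ.norm_coe_le_norm _
            _ = ‖φ‖ * n := by simp [mul_comm]
      · filter_upwards [hb] with p hp
        exact hp φ
    have h2 : ∀ n : ℕ, 0 < n → ∫ p, (∑ k ∈ range n, φ (map^[k] p)) / n ∂ν = ∫ p, φ p ∂ν := by
      intro n hn
      rw [integral_div, integral_finsetSum]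
      · have h3 : ∀ k ∈ range n, ∫ p, φ (map^[k] p) ∂ν = ∫ p, φ p ∂ν := by
          intro k _
          conv_rhs => rw [← hiter k]
          rw [integral_map (continuous_map.iterate k).measurable.aemeasurable
            φ.continuous.aestronglyMeasurable]
        rw [Finset.sum_congr rfl h3]
        have hn' : (n : ℝ) ≠ 0 := by exact_mod_cast hn.ne'
        simp only [sum_const, card_range, nsmul_eq_mul]
        field_simp
      · intro k _
        refine Integrable.of_bound (φ.continuous.comp
          (continuous_map.iterate k)).aestronglyMeasurable ‖φ‖ ?_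
        exact Eventually.of_forall fun p => φ.norm_coe_le_norm _
    have h4 : Tendsto (fun n : ℕ => ∫ p, (∑ k ∈ range n, φ (map^[k] p)) / n ∂ν) atTop
        (𝓝 (∫ p, φ p ∂ν)) := by
      refine tendsto_const_nhds.congr' ?_
      filter_upwards [eventually_gt_atTop 0] with n hn
      exact (h2 n hn).symm
    have h5 := tendsto_nhds_unique h4 h1
    rw [h5]
    simp
  have heq : ν = mu := by
    apply ext_of_forall_integral_eq_of_IsFiniteMeasure
    intro φ
    exact hkey φ.toContinuousMap
  have h1 := hac volume_circle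
  rw [heq, mu_circle] at h1
  exact one_ne_zero h1

end Pool.Agent.Results.MP_a891d2_an.TorusExample
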