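import Mathlib
import Pool.Agent.Lib_MP_a891d2_an.Unstable

/-!
# A measurable partition subordinate to the unstable manifolds
-/

namespace Pool.Agent.Results.MP_a891d2_an.TorusExample

open MeasureTheory Filter Topology Finset

/-- the representative in `[0,1)`. -/
noncomputable def cr (ξ : UnitAddCircle) : ℝ := (AddCircle.equivIco 1 0 ξ : ℝ)

lemma cr_nonneg (ξ : UnitAddCircle) : 0 ≤ cr ξ := (AddCircle.equivIco 1 0 ξ).2.1

lemma cr_lt_one (ξ : UnitAddCircle) : cr ξ < 1 := by
  have h : cr ξ < 0 + 1 := (AddCircle.equivIco 1 0 ξ).2.2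
  linarith

lemma coe_cr (ξ : UnitAddCircle) : (cr ξ : UnitAddCircle) = ξ := coe_equivIco ξ

lemma cr_coe (x : ℝ) : cr (x : UnitAddCircle) = Int.fract x := by
  unfold cr
  rw [AddCircle.coe_equivIco_mk_apply]
  simp

lemma cr_coe_of_mem {x : ℝ} (h0 : 0 ≤ x) (h1 : x < 1) : cr (x : UnitAddCircle) = x := by
  rw [cr_coe, Int.fract_eq_self.2 ⟨h0, h1⟩]

lemma measurable_cr : Measurable cr := by
  unfold cr
  exact measurable_subtype_coe.comp (AddCircle.measurableEquivIco 1 0).measurable

/-- The ternary digit. -/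
noncomputable def digit (ξ : UnitAddCircle) : ℤ := ⌊3 * cr ξ⌋

lemma measurable_digit : Measurable digit := by
  unfold digit
  exact Int.measurable_floor.comp (measurable_cr.const_mul 3)

lemma three_cr {a b : UnitAddCircle} (h : (3 : ℕ) • a = b) : 3 * cr a = digit a + cr b := by
  have h1 : b = ((3 * cr a : ℝ) : UnitAddCircle) := by
    conv_lhs => rw [← h, ← coe_cr a, ← AddCircle.coe_nsmul]
    simp
  rw [h1, cr_coe, digit]
  exact (Int.floor_add_fract _).symm

/-- The digits and the second coordinates along the past. -/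
noncomputable def part (y : ℕ → Torus) : (ℕ → ℤ) × (ℕ → UnitAddCircle) :=
  (fun n => digit (y n).1, fun n => (y n).2)

lemma measurable_part : Measurable part := by
  unfold part
  apply Measurable.prodMk
  · apply measurable_pi_lambda
    intro n
    exact measurable_digit.comp (measurable_fst.comp (measurable_pi_apply n))
  · apply measurable_pi_lambda
    intro n
    exact measurable_snd.comp (measurable_pi_apply n)

/-- Points of the solenoid with the same digits lie on a common flow line. -/
lemma eq_add_flow_of_digits {x z : Sol} (h : ∀ n, digit (z.1 n) = digit (x.1 n)) :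
    z = x + flow (cr (z.1 0) - cr (x.1 0)) := by
  have hstep : ∀ n, cr (z.1 n) - cr (x.1 n) = (cr (z.1 0) - cr (x.1 0)) / 3 ^ n := by
    intro n
    induction n with
    | zero => simp
    | succ n ih =>
      have h1 := three_cr (z.2 n)
      have h2 := three_cr (x.2 n)
      rw [h (n + 1)] at h1
      have h3 : 3 * (cr (z.1 (n + 1)) - cr (x.1 (n + 1))) = cr (z.1 n) - cr (x.1 n) := by linarith
      rw [ih] at h3
      rw [pow_succ]
      field_simp
      field_simp at h3
      linarith
  apply Subtype.ext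
  funext n
  show z.1 n = x.1 n + (flow _).1 n
  rw [flow_apply, ← hstep, AddCircle.coe_sub, coe_cr, coe_cr]
  abel

lemma digit_bounds (ξ : UnitAddCircle) : 0 ≤ digit ξ ∧ digit ξ ≤ 2 := by
  have h0 := cr_nonneg ξ
  have h1 := cr_lt_one ξ
  constructor
  · exact Int.floor_nonneg.2 (by linarith)
  · have : digit ξ < 3 := by
      unfold digit
      rw [Int.floor_lt]
      push_cast
      linarith
    omega

/-- Moving inside a digit interval does not change the digits. -/
lemma cr_add_flow {x : Sol} {s : ℝ} (h0 : 0 ≤ cr (x.1 0) + s) (h1 : cr (x.1 0) + s < 1) (n : ℕ) :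
    cr ((x + flow s).1 n) = cr (x.1 n) + s / 3 ^ n := by
  induction n with
  | zero =>
    have : (x + flow s).1 0 = ((cr (x.1 0) + s : ℝ) : UnitAddCircle) := by
      show x.1 0 + (flow s).1 0 = _
      rw [flow_apply, AddCircle.coe_add, coe_cr]
      simp
    rw [this, cr_coe_of_mem h0 h1]
    simp
  | succ n ih =>
    have h2 : (x + flow s).1 (n + 1) =
        ((cr (x.1 (n + 1)) + s / 3 ^ (n + 1) : ℝ) : UnitAddCircle) := by
      show x.1 (n + 1) + (flow s).1 (n + 1) = _
      rw [flow_apply, AddCircle.coe_add, coe_cr]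
    have h3 := three_cr (x.2 n)
    have h4 := cr_nonneg ((x + flow s).1 n)
    have h5 := cr_lt_one ((x + flow s).1 n)
    rw [ih] at h4 h5
    have h6 := digit_bounds (x.1 (n + 1))
    have h7 : (0 : ℝ) ≤ digit (x.1 (n + 1)) := by exact_mod_cast h6.1
    have h8 : (digit (x.1 (n + 1)) : ℝ) ≤ 2 := by exact_mod_cast h6.2
    have h9 : 3 * (cr (x.1 (n + 1)) + s / 3 ^ (n + 1)) =
        digit (x.1 (n + 1)) + (cr (x.1 n) + s / 3 ^ n) := by
      rw [mul_add, h3, pow_succ]
      field_simp
      ring
    rw [h2]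
    apply cr_coe_of_mem <;> linarith

lemma digit_add_flow {x : Sol} {s : ℝ} (h : ⌊3 * (cr (x.1 0) + s)⌋ = ⌊3 * cr (x.1 0)⌋) (n : ℕ) :
    digit ((x + flow s).1 n) = digit (x.1 n) := by
  have hd := digit_bounds (x.1 0)
  unfold digit at hd
  rw [← h] at hd
  have h0 : 0 ≤ cr (x.1 0) + s := by
    have := Int.floor_nonneg.1 hd.1
    linarith
  have h1 : cr (x.1 0) + s < 1 := by
    have : ⌊3 * (cr (x.1 0) + s)⌋ < 3 := by omega
    rw [Int.floor_lt] at this
    push_cast at this
    linarith
  cases n with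
  | zero =>
    unfold digit
    rw [cr_add_flow h0 h1]
    simpa using h
  | succ n =>
    have h2 := three_cr ((x + flow s).2 n)
    have h3 := three_cr (x.2 n)
    rw [cr_add_flow h0 h1, cr_add_flow h0 h1] at h2
    have h4 : 3 * (cr (x.1 (n + 1)) + s / 3 ^ (n + 1)) = 3 * cr (x.1 (n + 1)) + s / 3 ^ n := by
      rw [pow_succ]
      field_simp
    rw [h4, h3] at h2
    have h5 : (digit ((x + flow s).1 (n + 1)) : ℝ) = digit (x.1 (n + 1)) := by linarith
    exact_mod_cast h5

lemma volume_zero : (volume : Measure UnitAddCircle) {0} = 0 := by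
  have h := AddCircle.volume_closedBall (T := 1) (x := 0) 0
  rw [Metric.closedBall_zero] at h
  rw [h]
  simp

/-- almost every point of the solenoid is not at a digit boundary. -/
lemma ae_not_boundary : ∀ᵐ x ∂haarSol, Int.fract (3 * cr (x.1 0)) ≠ 0 := by
  have h1 : ∀ᵐ ξ : UnitAddCircle, ξ ≠ 0 := by
    rw [ae_iff]
    simpa using volume_zero
  have h2 := ((measurePreserving_proj 0).comp measurePreserving_triple).quasiMeasurePreserving.ae h1
  filter_upwards [h2] with x hx h
  apply hx
  show (3 : ℕ) • x.1 0 = 0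
  rw [← coe_cr (x.1 0), ← AddCircle.coe_nsmul, AddCircle.coe_eq_zero_iff]
  refine ⟨⌊3 * cr (x.1 0)⌋, ?_⟩
  have := Int.floor_add_fract (3 * cr (x.1 0))
  rw [h] at this
  simp only [zsmul_eq_mul, mul_one, nsmul_eq_mul, Nat.cast_ofNat]
  linarith

theorem isSubordinate_part : IsSubordinate map mu' part := by
  refine ⟨measurable_part, ?_⟩
  rw [ae_mu'_iff]
  filter_upwards [ae_not_boundary] with x hx
  set r := cr (x.1 0) with hr
  have hr0 := cr_nonneg (x.1 0)
  have hr1 := cr_lt_one (x.1 0)
  rw [← hr] at hr0 hr1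
  -- description of the atom
  have hatom : ∀ y ∈ atom map part (emb x), ∃ s : ℝ, |s| < 1 / 3 ∧ y = emb (x + flow s) ∧
      cr (y 0).1 = r + s := by
    rintro y ⟨hy, hq⟩
    unfold part at hq
    rw [Prod.mk.injEq] at hq
    have hq1 : ∀ n, digit (y n).1 = digit (x.1 n) := fun n => congrFun hq.1 n
    have hq2 : ∀ n, (y n).2 = 0 := fun n => congrFun hq.2 n
    let z : Sol := ⟨fun n => (y n).1, by
      intro n
      have := congrArg Prod.fst (hy n)
      rw [map_fst] at this
      exact this⟩
    have hz : z = x + flow (cr (z.1 0) - cr (x.1 0)) := eq_add_flow_of_digits hq1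
    have hyz : y = emb z := by
      funext n
      exact Prod.ext rfl (hq2 n)
    refine ⟨cr (z.1 0) - cr (x.1 0), ?_, ?_, ?_⟩
    · have h1 : ⌊3 * cr (z.1 0)⌋ = ⌊3 * cr (x.1 0)⌋ := hq1 0
      have h2 := Int.abs_sub_lt_one_of_floor_eq_floor h1
      have h3 : 3 * cr (z.1 0) - 3 * cr (x.1 0) = 3 * (cr (z.1 0) - cr (x.1 0)) := by ring
      rw [h3, abs_mul, abs_of_pos (by norm_num : (0 : ℝ) < 3)] at h2
      linarith
    · rw [← hz]; exact hyz
    · show cr (z.1 0) = r + (cr (z.1 0) - r)
      ring
  have hc0 : ∀ s : ℝ, toTorus (r + s, 0) = emb (x + flow s) 0 := by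
    intro s
    show (((r + s : ℝ) : UnitAddCircle), ((0 : ℝ) : UnitAddCircle)) = (x.1 0 + (flow s).1 0, 0)
    rw [AddCircle.coe_add, hr, coe_cr, flow_apply]
    simp
  refine ⟨fun t => (r + t / 3, 0), ?_, ?_, ?_, ?_, ?_⟩
  · refine ⟨?_, ?_, ?_, ?_, ?_⟩
    · exact (contDiff_const.add (contDiff_id.div_const _)).prodMk contDiff_const
    · intro t _
      have h1 : HasDerivAt (fun t : ℝ => ((r + t / 3, 0) : ℝ × ℝ)) ((1 / 3 : ℝ), (0 : ℝ)) t :=
        (((hasDerivAt_id' t).div_const 3).const_add r).prodMk (hasDerivAt_const t 0)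
      rw [h1.deriv]
      simp
    · intro t ht t' ht' h
      simp only [toTorus, Prod.mk.injEq, and_true] at h
      rw [QuotientAddGroup.eq_iff_sub_mem, AddSubgroup.mem_zmultiples_iff] at h
      obtain ⟨k, hk⟩ := h
      simp only [zsmul_eq_mul, mul_one] at hk
      have h1 : |(k : ℝ)| < 1 := by
        rw [hk, abs_lt]
        constructor <;> linarith [ht.1, ht.2, ht'.1, ht'.2]
      have h2 : |k| < 1 := by exact_mod_cast h1
      have h3 : k = 0 := Int.abs_lt_one_iff.1 h2
      rw [h3] at hk
      simp only [Int.cast_zero] at hk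
      linarith
    · have := hc0 0
      simp only [add_zero] at this
      simp only [zero_div, add_zero]
      rw [this]
      have h0 : flow 0 = 0 := by
        apply Subtype.ext
        funext n
        rw [flow_apply]
        simp
      rw [h0, add_zero]
    · intro t _
      exact ⟨emb (x + flow (t / 3)), coe_flow_mem x (t / 3), (hc0 (t / 3)).symm⟩
  · intro y hy y' hy' h
    obtain ⟨s, _, rfl, hs⟩ := hatom y hy
    obtain ⟨s', _, rfl, hs'⟩ := hatom y' hy'
    simp only at h
    rw [h, hs'] at hs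
    have : s = s' := by linarith
    rw [this]
  · intro y hy
    obtain ⟨s, _, rfl, hs⟩ := hatom y hy
    exact coe_flow_mem x s
  · intro y hy
    obtain ⟨s, hs1, rfl, hs⟩ := hatom y hy
    refine ⟨3 * s, ?_, ?_⟩
    · rw [abs_lt] at hs1
      constructor <;> linarith
    · have := hc0 s
      rw [← this]
      congr 2
      ring
  · have hf0 := Int.fract_nonneg (3 * r)
    have hf1 := Int.fract_lt_one (3 * r)
    refine ⟨min (Int.fract (3 * r)) (1 - Int.fract (3 * r)), ?_, ?_⟩
    · apply lt_min
      · exact lt_of_le_of_ne hf0 (Ne.symm hx)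
      · linarith
    · intro t ht
      rw [lt_min_iff, abs_lt, abs_lt] at ht
      refine ⟨emb (x + flow (t / 3)), ⟨emb_mem _, ?_⟩, (hc0 (t / 3)).symm⟩
      have hfl : ⌊3 * (r + t / 3)⌋ = ⌊3 * r⌋ := by
        rw [Int.floor_eq_iff]
        have := Int.floor_add_fract (3 * r)
        constructor <;> linarith [ht.1.1, ht.1.2, ht.2.1, ht.2.2]
      unfold part
      rw [Prod.mk.injEq]
      constructor
      · funext n
        exact digit_add_flow hfl n
      · rfl

end Pool.Agent.Results.MP_a891d2_an.TorusExample
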