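import Mathlib
import Pool.Agent.Lib_MP_a891d2_an.Partition

/-!
# Absolute continuity of the conditional measures
-/

namespace Pool.Agent.Results.MP_a891d2_an.TorusExample

open MeasureTheory Filter Topology ProbabilityTheory

/-- A null set of the circle pulls back to a null set of the line. -/
lemma null_preimage {A : Set UnitAddCircle} (hA : MeasurableSet A)
    (h : (volume : Measure UnitAddCircle) A = 0) :
    (volume : Measure ℝ) ((fun s : ℝ => (s : UnitAddCircle)) ⁻¹' A) = 0 := by
  have h1 : ∀ k : ℤ, (volume : Measure ℝ)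
      (((fun s : ℝ => (s : UnitAddCircle)) ⁻¹' A) ∩ Set.Ioc (k : ℝ) (k + 1)) = 0 := by
    intro k
    have h2 := (UnitAddCircle.measurePreserving_mk (k : ℝ)).measure_preimage hA.nullMeasurableSet
    rw [h, Measure.restrict_apply] at h2
    · exact h2
    · exact (UnitAddCircle.measurePreserving_mk (k : ℝ)).measurable hA
  have h3 : ((fun s : ℝ => (s : UnitAddCircle)) ⁻¹' A) =
      ⋃ k : ℤ, (((fun s : ℝ => (s : UnitAddCircle)) ⁻¹' A) ∩ Set.Ioc (k : ℝ) (k + 1)) := by
    rw [← Set.inter_iUnion]
    have : (⋃ k : ℤ, Set.Ioc (k : ℝ) (k + 1)) = Set.univ := iUnion_Ioc_intCast ℝ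
    rw [this, Set.inter_univ]
  rw [h3]
  exact measure_iUnion_null h1

/-- Conversely, a measurable set of the circle with null preimage is null. -/
lemma null_of_preimage {A : Set UnitAddCircle} (hA : MeasurableSet A)
    (h : (volume : Measure ℝ) ((fun s : ℝ => (s : UnitAddCircle)) ⁻¹' A) = 0) :
    (volume : Measure UnitAddCircle) A = 0 := by
  have h2 := (UnitAddCircle.measurePreserving_mk 0).measure_preimage hA.nullMeasurableSet
  rw [← h2]
  have h3 : (volume.restrict (Set.Ioc (0 : ℝ) (0 + 1))) ≤ (volume : Measure ℝ) :=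
    Measure.restrict_le_self
  have h4 := h3 ((fun s : ℝ => (s : UnitAddCircle)) ⁻¹' A)
  rw [h] at h4
  exact le_antisymm h4 bot_le

/-- The integer translates of a null set. -/
lemma null_translates {Z : Set ℝ} (hZ : (volume : Measure ℝ) Z = 0) (a : ℝ) :
    (volume : Measure ℝ) {r : ℝ | ∃ s ∈ Z, (r : UnitAddCircle) = (a : UnitAddCircle) + s} = 0 := by
  have hsub : {r : ℝ | ∃ s ∈ Z, (r : UnitAddCircle) = (a : UnitAddCircle) + s} ⊆
      ⋃ k : ℤ, (fun s : ℝ => (k : ℝ) + a + s) '' Z := by
    rintro r ⟨s, hs, hr⟩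
    rw [← AddCircle.coe_add, QuotientAddGroup.eq_iff_sub_mem, AddSubgroup.mem_zmultiples_iff] at hr
    obtain ⟨k, hk⟩ := hr
    simp only [zsmul_eq_mul, mul_one] at hk
    rw [Set.mem_iUnion]
    exact ⟨k, s, hs, by simp only; linarith⟩
  refine measure_mono_null hsub (measure_iUnion_null fun k => ?_)
  rw [Set.image_add_left]
  rw [measure_preimage_add]
  exact hZ

section

variable {Y : Type} [MeasurableSpace Y] [StandardBorelSpace Y] (q : (ℕ → Torus) → Y)

omit [MeasurableSpace Y] [StandardBorelSpace Y] in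
/-- For a subordinate partition, the part of the flow line in the atom has positive length. -/
lemma positive_length {x : Sol} {c : ℝ → ℝ × ℝ} (hc : SubordinateAt map q (emb x) c)
    (hx : Tendsto (fun n : ℕ => (∑ k ∈ Finset.range n, cc (x.1 (k + 1))) / n) atTop (𝓝 0)) :
    (volume : Measure ℝ) {s : ℝ | q (emb (x + flow s)) = q (emb x)} ≠ 0 := by
  intro hzero
  obtain ⟨δ, hδ, hnb⟩ := hc.nbhd
  set Z : Set ℝ := {s : ℝ | q (emb (x + flow s)) = q (emb x)} with hZ
  have hnull := null_translates hzero (cr (x.1 0))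
  rw [coe_cr] at hnull
  -- points of the arc near its centre
  have harc : ∀ t : ℝ, |t| < δ → ((c t).2 : UnitAddCircle) = 0 ∧
      ∃ s ∈ Z, (((c t).1 : ℝ) : UnitAddCircle) = x.1 0 + s := by
    intro t ht
    obtain ⟨y, hy, hyt⟩ := hnb t ht
    obtain ⟨s, hs⟩ := unstable_eq_flow x hx (hc.unstable hy)
    have hy2 := hy.2
    rw [hs] at hyt hy2
    have h1 : ((x + flow s).1 0, (0 : UnitAddCircle)) = toTorus (c t) := hyt
    unfold toTorus at h1
    rw [Prod.mk.injEq] at h1
    refine ⟨h1.2.symm, s, hy2, ?_⟩
    rw [← h1.1]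
    show x.1 0 + (flow s).1 0 = x.1 0 + s
    rw [flow_apply]
    simp
  set t₁ : ℝ := min (δ / 2) (1 / 2) with ht₁
  have ht₁0 : 0 < t₁ := lt_min (by linarith) (by norm_num)
  have ht₁δ : t₁ < δ := lt_of_le_of_lt (min_le_left _ _) (by linarith)
  have ht₁1 : t₁ ≤ 1 / 2 := min_le_right _ _
  have hne : (c 0).1 ≠ (c t₁).1 := by
    intro h
    have h0 := harc 0 (by simpa using hδ)
    have h1 := harc t₁ (by rw [abs_of_pos ht₁0]; exact ht₁δ)
    have h2 : toTorus (c 0) = toTorus (c t₁) := by
      unfold toTorus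
      rw [h0.1, h1.1, h]
    have h3 := hc.arc.embedded (show (0 : ℝ) ∈ Set.Icc (-1 : ℝ) 1 by constructor <;> norm_num)
      (show t₁ ∈ Set.Icc (-1 : ℝ) 1 by constructor <;> linarith) h2
    linarith
  have hcont : ContinuousOn (fun t => (c t).1) (Set.uIcc 0 t₁) :=
    (continuous_fst.comp hc.arc.smooth.continuous).continuousOn
  have hsub : Set.uIcc (c 0).1 (c t₁).1 ⊆
      {r : ℝ | ∃ s ∈ Z, (r : UnitAddCircle) = x.1 0 + s} := by
    intro r hr
    obtain ⟨t, ht, rfl⟩ := intermediate_value_uIcc hcont hr
    rw [Set.uIcc_of_le ht₁0.le] at ht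
    exact (harc t (by rw [abs_of_nonneg ht.1]; linarith [ht.2])).2
  have h4 := measure_mono_null hsub hnull
  rw [Set.uIcc, Real.volume_Icc, ENNReal.ofReal_eq_zero] at h4
  rcases lt_or_gt_of_ne hne with h | h
  · rw [sup_eq_right.2 h.le, inf_eq_left.2 h.le] at h4
    linarith
  · rw [sup_eq_left.2 h.le, inf_eq_right.2 h.le] at h4
    linarith

lemma measurable_add_flow : Measurable (fun p : Sol × ℝ => p.1 + flow p.2) :=
  (continuous_fst.add (continuous_flow.comp continuous_snd)).measurable

instance instSecondCountableSol : SecondCountableTopology Sol :=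
  TopologicalSpace.Subtype.secondCountableTopology _

/-- The flow argument: a set `S` whose slices are `mu`-null is avoided almost surely. -/
lemma flow_argument (hq : Measurable q)
    (hpos : ∀ᵐ x ∂haarSol, (volume : Measure ℝ) {s : ℝ | q (emb (x + flow s)) = q (emb x)} ≠ 0)
    {S : Set (Y × Torus)} (hS : MeasurableSet S) (hS0 : ∀ y, mu (Prod.mk y ⁻¹' S) = 0) :
    ∀ᵐ x ∂haarSol, (q (emb x), emb x 0) ∉ S := by
  have hqe : Measurable (fun x : Sol => q (emb x)) := hq.comp measurable_emb
  have h0m : Measurable (fun y : ℕ → Torus => y 0) := measurable_pi_apply 0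
  have he0 : Measurable (fun x : Sol => emb x 0) := h0m.comp measurable_emb
  set N : Set Sol := {x | (q (emb x), emb x 0) ∈ S} with hN
  have hNm : MeasurableSet N := (hqe.prodMk he0) hS
  set H : Set (Sol × ℝ) := {p | p.1 + flow p.2 ∈ N ∧ q (emb (p.1 + flow p.2)) = q (emb p.1)}
    with hH
  have hHm : MeasurableSet H := by
    apply MeasurableSet.inter
    · exact measurable_add_flow hNm
    · exact measurableSet_eq_fun (hqe.comp measurable_add_flow) (hqe.comp measurable_fst)
  -- slices of `H` in the `s` direction are null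
  have hH1 : ∀ x : Sol, (volume : Measure ℝ) (Prod.mk x ⁻¹' H) = 0 := by
    intro x
    have hS1 := hS0 (q (emb x))
    unfold mu at hS1
    have hSm : MeasurableSet (Prod.mk (q (emb x)) ⁻¹' S) := measurable_prodMk_left hS
    rw [Measure.map_apply measurable_circle hSm] at hS1
    set A : Set UnitAddCircle :=
      (fun ξ : UnitAddCircle => x.1 0 + ξ) ⁻¹' ((fun ξ : UnitAddCircle => ((ξ, 0) : Torus)) ⁻¹'
        (Prod.mk (q (emb x)) ⁻¹' S)) with hA
    have hAm : MeasurableSet A := (measurable_const_add _) (measurable_circle hSm)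
    have hA0 : (volume : Measure UnitAddCircle) A = 0 := by
      rw [hA, measure_preimage_add]
      exact hS1
    refine measure_mono_null ?_ (null_preimage hAm hA0)
    rintro s ⟨hs1, hs2⟩
    show (q (emb x), ((x.1 0 + (s : UnitAddCircle), 0) : Torus)) ∈ S
    have h1 : (q (emb (x + flow s)), emb (x + flow s) 0) ∈ S := hs1
    have h2 : q (emb (x + flow s)) = q (emb x) := hs2
    rw [h2] at h1
    have h3 : emb (x + flow s) 0 = (x.1 0 + (s : UnitAddCircle), 0) := by
      show (x.1 0 + (flow s).1 0, (0 : UnitAddCircle)) = _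
      rw [flow_apply]
      simp
    rw [h3] at h1
    exact h1
  have hHnull : (haarSol.prod (volume : Measure ℝ)) H = 0 := by
    rw [Measure.measure_prod_null hHm]
    exact Eventually.of_forall hH1
  -- exchange the order
  have hHswap : ((volume : Measure ℝ).prod haarSol) (Prod.swap ⁻¹' H) = 0 := by
    rw [← Measure.map_apply measurable_swap hHm, Measure.prod_swap]
    exact hHnull
  have hH2 : ∀ᵐ s : ℝ, haarSol {x | (x, s) ∈ H} = 0 :=
    Measure.measure_ae_null_of_prod_null hHswap
  -- translate
  set H' : Set (ℝ × Sol) := {p | p.2 ∈ N ∧ q (emb (p.2 + flow (-p.1))) = q (emb p.2)} with hH'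
  have hH'm : MeasurableSet H' := by
    have h1 : Measurable (fun p : ℝ × Sol => p.2 + flow (-p.1)) :=
      (continuous_snd.add (continuous_flow.comp continuous_fst.neg)).measurable
    apply MeasurableSet.inter
    · exact measurable_snd hNm
    · exact measurableSet_eq_fun (hqe.comp h1) (hqe.comp measurable_snd)
  have hH'slice : ∀ᵐ s : ℝ, haarSol (Prod.mk s ⁻¹' H') = 0 := by
    filter_upwards [hH2] with s hs
    have h1 : (fun x : Sol => x + flow s) ⁻¹' (Prod.mk s ⁻¹' H') = {x | (x, s) ∈ H} := by
      ext x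
      simp only [hH', hH, Set.mem_preimage, Set.mem_ofPred_eq]
      have h2 : x + flow s + flow (-s) = x := by
        rw [add_assoc, ← flow_add]
        have h0 : flow (s + -s) = 0 := by
          apply Subtype.ext
          funext n
          rw [flow_apply]
          simp
        rw [h0, add_zero]
      rw [h2]
      exact and_congr_right fun _ => eq_comm
    rw [← h1, measure_preimage_add_right] at hs
    exact hs
  have hH'null : ((volume : Measure ℝ).prod haarSol) H' = 0 := by
    rw [Measure.measure_prod_null hH'm]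
    exact hH'slice
  have hH'swap : (haarSol.prod (volume : Measure ℝ)) (Prod.swap ⁻¹' H') = 0 := by
    rw [← Measure.map_apply measurable_swap hH'm, Measure.prod_swap]
    exact hH'null
  have hH3 : ∀ᵐ x ∂haarSol, (volume : Measure ℝ) {s | (s, x) ∈ H'} = 0 :=
    Measure.measure_ae_null_of_prod_null hH'swap
  filter_upwards [hH3, hpos] with x hx1 hx2 hxN
  apply hx2
  have h1 : {s : ℝ | q (emb (x + flow s)) = q (emb x)} = (fun s : ℝ => -s) ⁻¹' {s | (s, x) ∈ H'} := by
    ext s
    simp only [hH', Set.mem_preimage, Set.mem_ofPred_eq, neg_neg]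
    exact ⟨fun h => ⟨hxN, h⟩, fun h => h.2⟩
  rw [h1]
  have h2 := Measure.measure_preimage_neg (volume : Measure ℝ) {s | (s, x) ∈ H'}
  have h3 : (fun s : ℝ => -s) ⁻¹' {s | (s, x) ∈ H'} = -{s | (s, x) ∈ H'} := rfl
  rw [h3, Measure.measure_neg]
  exact hx1

/-- The conditional measures, pushed to the torus, are absolutely continuous with respect
to `mu`. -/
lemma cond_absolutelyContinuous_mu (hq : IsSubordinate map mu' q) :
    ∀ᵐ x ∂mu', (condDistrib (fun y : ℕ → Torus => y) q mu' (q x)).map (fun y => y 0) ≪ mu := by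
  set κ := condDistrib (fun y : ℕ → Torus => y) q mu' with hκ
  have h0m : Measurable (fun y : ℕ → Torus => y 0) := measurable_pi_apply 0
  set κ' : Kernel Y Torus := κ.map (fun y => y 0) with hκ'
  set η : Kernel Y Torus := Kernel.const Y mu with hη
  have hpos : ∀ᵐ x ∂haarSol,
      (volume : Measure ℝ) {s : ℝ | q (emb (x + flow s)) = q (emb x)} ≠ 0 := by
    have h1 := ae_mu'_iff.1 hq.2
    filter_upwards [h1, ae_backward] with x h1 h2
    obtain ⟨c, hc⟩ := h1
    exact positive_length q hc h2
  have hS := Kernel.measurableSet_mutuallySingularSet κ' η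
  have hS0 : ∀ y, mu (Prod.mk y ⁻¹' (Kernel.mutuallySingularSet κ' η)) = 0 := by
    intro y
    have := Kernel.measure_mutuallySingularSetSlice κ' η y
    rw [hη, Kernel.const_apply] at this
    exact this
  have hflow := flow_argument q hq.1 hpos hS hS0
  have hcomp := compProd_map_condDistrib (mβ := inferInstance) (μ := mu') (X := q)
    (Y := fun y : ℕ → Torus => y) measurable_id.aemeasurable
  have hTm : MeasurableSet {p : Y × (ℕ → Torus) | (p.1, p.2 0) ∈ Kernel.mutuallySingularSet κ' η} :=
    (measurable_fst.prodMk (h0m.comp measurable_snd)) hS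
  have hT0 : ((mu'.map q) ⊗ₘ κ)
      {p : Y × (ℕ → Torus) | (p.1, p.2 0) ∈ Kernel.mutuallySingularSet κ' η} = 0 := by
    have hgm : Measurable (fun a : ℕ → Torus => (q a, a)) := hq.1.prodMk measurable_id
    rw [hκ, hcomp, Measure.map_apply hgm hTm]
    have h1 : ∀ᵐ x ∂mu', (q x, x 0) ∉ Kernel.mutuallySingularSet κ' η := ae_mu'_iff.2 hflow
    rw [ae_iff] at h1
    simp only [not_not] at h1
    exact h1
  rw [Measure.compProd_apply hTm, lintegral_eq_zero_iff
    (Kernel.measurable_kernel_prodMk_left hTm)] at hT0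
  have h2 : ∀ᵐ y ∂(mu'.map q), κ' y ≪ η y := by
    filter_upwards [hT0] with y hy
    rw [← Kernel.singularPart_eq_zero_iff_absolutelyContinuous,
      Kernel.singularPart_eq_zero_iff_measure_eq_zero, hκ', Kernel.map_apply' _ h0m]
    · exact hy
    · exact Kernel.measurableSet_mutuallySingularSetSlice _ _ _
  have h3 := ae_of_ae_map hq.1.aemeasurable h2
  filter_upwards [h3] with x hx
  rw [hκ', Kernel.map_apply _ h0m, hη, Kernel.const_apply] at hx
  exact hx

/-- The conditional measures live on the atoms. -/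
lemma cond_concentrated (hq : Measurable q) :
    ∀ᵐ x ∂mu', ∀ᵐ z ∂(condDistrib (fun y : ℕ → Torus => y) q mu' (q x)), z ∈ atom map q x := by
  have hcomp := compProd_map_condDistrib (mβ := inferInstance) (μ := mu') (X := q)
    (Y := fun y : ℕ → Torus => y) measurable_id.aemeasurable
  have hcl : MeasurableSet (naturalExtension map) := by
    have : naturalExtension map = ⋂ n, {x : ℕ → Torus | map (x (n + 1)) = x n} := by
      ext x
      simp [naturalExtension]
    rw [this]
    apply MeasurableSet.iInter
    intro n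
    exact measurableSet_eq_fun (continuous_map.measurable.comp (measurable_pi_apply (n + 1)))
      (measurable_pi_apply n)
  have hTm : MeasurableSet {p : Y × (ℕ → Torus) | p.2 ∈ naturalExtension map ∧ q p.2 = p.1} := by
    apply MeasurableSet.inter
    · exact measurable_snd hcl
    · exact measurableSet_eq_fun (hq.comp measurable_snd) measurable_fst
  have h1 : ∀ᵐ p ∂((mu'.map q) ⊗ₘ (condDistrib (fun y : ℕ → Torus => y) q mu')),
      p.2 ∈ naturalExtension map ∧ q p.2 = p.1 := by
    have hgm : Measurable (fun a : ℕ → Torus => (q a, a)) := hq.prodMk measurable_id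
    rw [hcomp, ae_map_iff hgm.aemeasurable hTm]
    filter_upwards [isNaturalLift.concentrated] with x hx
    exact ⟨hx, rfl⟩
  have h2 := Measure.ae_ae_of_ae_compProd h1
  have h3 := ae_of_ae_map hq.aemeasurable h2
  filter_upwards [h3] with x hx
  filter_upwards [hx] with z hz
  exact hz

theorem hasACConditionals (hq : IsSubordinate map mu' q) : HasACConditionals map mu' q := by
  filter_upwards [cond_absolutelyContinuous_mu q hq, cond_concentrated q hq.1] with x hac hconc c hc
  have h0m : Measurable (fun y : ℕ → Torus => y 0) := measurable_pi_apply 0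
  have hcm : Measurable (fun t : ℝ => toTorus (c t)) :=
    (continuous_toTorus.comp hc.arc.smooth.continuous).measurable
  set W : Set Torus := (fun t : ℝ => toTorus (c t)) '' Set.Icc (-1) 1 with hW
  have hWc : IsCompact W :=
    isCompact_Icc.image (continuous_toTorus.comp hc.arc.smooth.continuous)
  have hWm : MeasurableSet W := hWc.isClosed.measurableSet
  refine Measure.AbsolutelyContinuous.mk fun B hB hB0 => ?_
  -- `B` meets the arc in a `mu`-null set
  rw [Measure.map_apply hcm hB, Measure.restrict_apply (hcm hB)] at hB0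
  have hmuB : mu (B ∩ W) = 0 := by
    unfold mu
    rw [Measure.map_apply measurable_circle (hB.inter hWm)]
    apply null_of_preimage (measurable_circle (hB.inter hWm))
    set T : Set ℝ := (fun t : ℝ => toTorus (c t)) ⁻¹' B ∩ Set.Icc (-1) 1 with hT
    have hdiff : DifferentiableOn ℝ (fun t => (c t).1) T :=
      ((hc.arc.smooth.differentiable one_ne_zero).fst).differentiableOn
    have hnull : (volume : Measure ℝ) ((fun t => (c t).1) '' T) = 0 :=
      addHaar_image_eq_zero_of_differentiableOn_of_addHaar_eq_zero volume hdiff hB0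
    refine measure_mono_null ?_ (null_translates hnull 0)
    rintro r ⟨hr1, t, ht, htr⟩
    refine ⟨(c t).1, ⟨t, ⟨?_, ht⟩, rfl⟩, ?_⟩
    · show toTorus (c t) ∈ B
      have : toTorus (c t) = ((r : UnitAddCircle), 0) := htr
      rw [this]
      exact hr1
    · have : toTorus (c t) = ((r : UnitAddCircle), 0) := htr
      have h2 := congrArg Prod.fst this
      simp only [toTorus] at h2
      rw [AddCircle.coe_zero, zero_add]
      exact h2.symm
  have h1 := hac hmuB
  rw [Measure.map_apply h0m (hB.inter hWm)] at h1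
  rw [Measure.map_apply h0m hB]
  refine measure_mono_null_ae ?_ h1
  filter_upwards [hconc] with z hz hzB
  obtain ⟨t, ht, htz⟩ := hc.inArc z hz
  exact ⟨hzB, t, ht, htz.symm⟩

end

theorem isSRB : IsSRB map mu' := by
  refine ⟨⟨_, _, inferInstance, part, isSubordinate_part⟩, ?_⟩
  intro Y _ _ q hq
  exact hasACConditionals q hq

end Pool.Agent.Results.MP_a891d2_an.TorusExample
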